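import Pool.Agent.V11142.WG.Lower

/-!
# Moves of chips along edges of a metric graph
-/

set_option autoImplicit false

namespace Pool.Agent.V11142.WG

open Pool.Agent.H997R3.Gon Finset

/-- initial slope of the ramp starting at `s` -/
noncomputable def rs (s : ℝ) : ℤ := if s ≤ 0 then 1 else 0

/-- kink of the ramp starting at `s` -/
noncomputable def rk (s : ℝ) : I →₀ ℤ :=
  if h : 0 < s ∧ s < 1 then Finsupp.single ⟨s, h⟩ 1 else 0

lemma rs_mom (s : ℝ) (h0 : 0 ≤ s) (h1 : s ≤ 1) : (rs s : ℝ) + mom (rk s) = 1 - s := by
  unfold rs rk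
  by_cases ha : s ≤ 0
  · have : s = 0 := le_antisymm ha h0
    subst this
    simp
  · by_cases hb : s < 1
    · rw [dif_pos ⟨not_le.1 ha, hb⟩, if_neg ha, mom_single]
      simp
    · have : s = 1 := le_antisymm h1 (not_lt.1 hb)
      subst this
      simp

variable {V E : Type} [Fintype V] [DecidableEq V] [Fintype E]

open Classical in
/-- the point at distance `s` from `src e` on the edge `e` -/
noncomputable def pe (G : MGraph V E) (e : E) (s : ℝ) : MDiv V E :=
  (fun v => (if G.src e = v then rs s else 0) +
    (if G.tgt e = v then 1 - (rs s + tot (rk s)) else 0), Pi.single e (rk s))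

lemma pe_low (G : MGraph V E) (e : E) (s : ℝ) (h : s ≤ 0) : pe G e s = ptV (G.src e) := by
  classical
  have h1 : rk s = 0 := by
    unfold rk
    rw [dif_neg (fun h' => absurd h'.1 (not_lt.2 h))]
  have h2 : rs s = 1 := by
    unfold rs
    rw [if_pos h]
  refine Prod.ext ?_ ?_
  · funext v
    simp only [pe, ptV, h1, h2, tot_zero, Pi.single_apply]
    by_cases hv : v = G.src e
    · subst hv
      simp
    · have hv' : G.src e ≠ v := fun h => hv h.symm
      simp [hv, hv']
  · simp only [pe, ptV, h1]
    simp

lemma pe_high (G : MGraph V E) (e : E) (s : ℝ) (h : 1 ≤ s) : pe G e s = ptV (G.tgt e) := by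
  classical
  have h1 : rk s = 0 := by
    unfold rk
    rw [dif_neg (fun h' => absurd h'.2 (not_lt.2 h))]
  have h2 : rs s = 0 := by
    unfold rs
    rw [if_neg (by linarith)]
  refine Prod.ext ?_ ?_
  · funext v
    simp only [pe, ptV, h1, h2, tot_zero, Pi.single_apply]
    by_cases hv : v = G.tgt e
    · subst hv
      simp
    · have hv' : G.tgt e ≠ v := fun h => hv h.symm
      simp [hv, hv']
  · simp only [pe, ptV, h1]
    simp

lemma pe_mid (G : MGraph V E) (e : E) (t : I) : pe G e t = ptE e t := by
  classical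
  have h0 := t.2.1
  have h1 : rk t = Finsupp.single t 1 := by
    have hh : 0 < (t : ℝ) ∧ (t : ℝ) < 1 := t.2
    unfold rk
    rw [dif_pos hh]
  have h2 : rs t = 0 := by
    unfold rs
    rw [if_neg (by linarith)]
  refine Prod.ext ?_ ?_
  · funext v
    simp only [pe, ptE, h1, h2, tot_single]
    simp
  · simp only [pe, ptE, h1]

lemma isPt_pe (G : MGraph V E) (e : E) (s : ℝ) : IsPt (pe G e s) := by
  by_cases h0 : s ≤ 0
  · exact Or.inl ⟨_, pe_low G e s h0⟩
  · by_cases h1 : 1 ≤ s
    · exact Or.inl ⟨_, pe_high G e s h1⟩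
    · exact Or.inr ⟨e, ⟨s, not_le.1 h0, not_le.1 h1⟩, pe_mid G e ⟨s, not_le.1 h0, not_le.1 h1⟩⟩

lemma IsPt.eff {P : MDiv V E} (h : IsPt P) : Eff P := by
  rcases h with ⟨v, rfl⟩ | ⟨e, t, rfl⟩
  · exact eff_ptV v
  · exact eff_ptE e t

lemma eff_pe (G : MGraph V E) (e : E) (s : ℝ) : Eff (pe G e s) := (isPt_pe G e s).eff

lemma two (G : MGraph V E) (e : E) (u v u' v' : ℝ) (hu : 0 ≤ u ∧ u ≤ 1) (hv : 0 ≤ v ∧ v ≤ 1)
    (hu' : 0 ≤ u' ∧ u' ≤ 1) (hv' : 0 ≤ v' ∧ v' ≤ 1) (h : u + v = u' + v') :
    Dom G (pe G e u + pe G e v) (pe G e u' + pe G e v') := by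
  classical
  have mneg : ∀ c : I →₀ ℤ, mom (-c) = - mom c := by
    intro c
    have := mom_add c (-c)
    rw [add_neg_cancel, mom_zero] at this
    linarith
  have q1 := rs_mom u hu.1 hu.2
  have q2 := rs_mom v hv.1 hv.2
  have q3 := rs_mom u' hu'.1 hu'.2
  have q4 := rs_mom v' hv'.1 hv'.2
  refine Dom.of_div (mkF G (fun _ => 0)
    (fun e' => if e' = e then rs u' + rs v' - rs u - rs v else 0)
    (fun e' => if e' = e then rk u' + rk v' + -(rk u) + -(rk v) else 0) ?_) ?_
  · intro e'
    by_cases he : e' = e
    · rw [if_pos he, if_pos he]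
      simp only [mom_add, mneg]
      push_cast
      linarith
    · rw [if_neg he, if_neg he]
      simp
  · refine Prod.ext ?_ ?_
    · funext w
      simp only [Prod.fst_add, Pi.add_apply]
      rw [div_fst]
      rw [Finset.sum_eq_single e]
      · simp only [mkF, if_true, tot_add, tot_neg, pe]
        split_ifs <;> ring
      · intro b _ hb
        simp only [mkF, if_neg hb]
        simp
      · simp
    · funext e'
      simp only [Prod.snd_add, Pi.add_apply]
      rw [div_snd]
      simp only [mkF, pe]
      by_cases he : e' = e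
      · subst he
        simp only [Pi.single_eq_same, if_true]
        abel
      · simp only [Pi.single_eq_of_ne he, if_neg he]
        simp

lemma multi (G : MGraph V E) (T : E → Prop) (s s' : E → ℝ) (hs : ∀ e, 0 ≤ s e ∧ s e ≤ 1)
    (hs' : ∀ e, 0 ≤ s' e ∧ s' e ≤ 1) (val : V → ℝ)
    (hv : ∀ e, T e → val (G.tgt e) - val (G.src e) = s e - s' e)
    (hv' : ∀ e, ¬ T e → val (G.tgt e) - val (G.src e) = 0) [DecidablePred T] :
    Dom G (∑ e, if T e then pe G e (s e) else 0) (∑ e, if T e then pe G e (s' e) else 0) := by
  classical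
  have mneg : ∀ c : I →₀ ℤ, mom (-c) = - mom c := by
    intro c
    have := mom_add c (-c)
    rw [add_neg_cancel, mom_zero] at this
    linarith
  refine Dom.of_div (mkF G val
    (fun e => if T e then rs (s' e) - rs (s e) else 0)
    (fun e => if T e then rk (s' e) + -(rk (s e)) else 0) ?_) ?_
  · intro e
    by_cases he : T e
    · rw [if_pos he, if_pos he]
      have q1 := rs_mom (s e) (hs e).1 (hs e).2
      have q2 := rs_mom (s' e) (hs' e).1 (hs' e).2
      have q3 := hv e he
      simp only [mom_add, mneg]
      push_cast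
      linarith
    · rw [if_neg he, if_neg he]
      have q3 := hv' e he
      simp only [mom_zero, Int.cast_zero]
      linarith
  · refine Prod.ext ?_ ?_
    · funext w
      simp only [Prod.fst_add, Pi.add_apply, Prod.fst_sum, Finset.sum_apply]
      rw [div_fst, ← Finset.sum_add_distrib]
      refine Finset.sum_congr rfl fun e _ => ?_
      simp only [mkF]
      by_cases he : T e
      · simp only [if_pos he, tot_add, tot_neg, pe]
        split_ifs <;> ring
      · simp only [if_neg he]
        simp
    · funext e'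
      simp only [Prod.snd_add, Pi.add_apply, Prod.snd_sum, Finset.sum_apply]
      rw [div_snd]
      have hsum : ∀ r : E → ℝ, ∑ e, ((if T e then pe G e (r e) else 0 : MDiv V E)).2 e' =
          if T e' then rk (r e') else 0 := by
        intro r
        rw [Finset.sum_eq_single e']
        · by_cases he : T e'
          · simp only [if_pos he, pe, Pi.single_eq_same]
          · simp only [if_neg he]
            rfl
        · intro b _ hb
          by_cases he : T b
          · simp only [if_pos he, pe]
            rw [Pi.single_eq_of_ne (Ne.symm hb)]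
          · simp only [if_neg he]
            rfl
        · simp
      rw [hsum, hsum]
      simp only [mkF]
      by_cases he : T e'
      · simp only [if_pos he]
        abel
      · simp only [if_neg he]
        simp

end Pool.Agent.V11142.WG
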