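import Pool.Agent.V11142.WG.Luo
import Pool.Agent.V11142.WG.Moves

/-!
# Covering the points of the first part of the wedge
-/

set_option autoImplicit false

namespace Pool.Agent.V11142.WG

open Pool.Agent.H997R3.Gon Finset

variable {V E : Type} [Fintype V] [DecidableEq V] [Fintype E] [DecidableEq E]

omit [DecidableEq E] in
lemma eff_sub_ptV (D : MDiv V E) (hD : Eff D) (v : V) (h : 1 ≤ D.1 v) : Eff (D - ptV v) := by
  refine ⟨fun w => ?_, fun e t => ?_⟩
  · simp only [Prod.fst_sub, Pi.sub_apply, ptV, Pi.single_apply]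
    split_ifs with hw
    · subst hw; linarith
    · simpa using hD.1 w
  · simpa [ptV] using hD.2 e t

omit [DecidableEq E] in
lemma eff_sub_ptE (D : MDiv V E) (hD : Eff D) (e : E) (t : I) (h : 1 ≤ D.2 e t) :
    Eff (D - ptE e t) := by
  classical
  refine ⟨fun w => ?_, fun e' t' => ?_⟩
  · simpa [ptE] using hD.1 w
  · simp only [Prod.snd_sub, Pi.sub_apply, ptE, Finsupp.sub_apply]
    by_cases he : e' = e
    · subst he
      rw [Pi.single_eq_same, Finsupp.single_apply]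
      split_ifs with ht
      · subst ht; linarith
      · simpa using hD.2 e' t'
    · rw [Pi.single_eq_of_ne he]
      simpa using hD.2 e' t'

omit [DecidableEq E] in
lemma eff_sub_both (D : MDiv V E) (hD : Eff D) (v : V) (e : E) (t : I) (h : 1 ≤ D.2 e t)
    (hv : 1 ≤ D.1 v) : Eff (D - (ptV v + ptE e t)) := by
  have h1 := eff_sub_ptE D hD e t h
  have h2 := eff_sub_ptV (D - ptE e t) h1 v (by simpa [ptE] using hv)
  convert h2 using 1
  abel

/-- the conditions satisfied by a divisor of rank at least one on the first subdivision -/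
lemma dom_inl (G : MGraph V E) (x : V) (M : ℕ) (D : V ⊕ (E × Fin (2 - 1)) → ℤ)
    (hD : (G.subdiv 2).EffRankOne D) (v : V) :
    Dom (wedge G x M) (emb M D) (ptV (Sum.inl v)) := by
  obtain ⟨φ, hφ⟩ := hD.2 (Sum.inl v)
  have hφ0 : ∀ w, 0 ≤ D w - (G.subdiv 2).lap φ w := by
    intro w
    have := hφ w
    split_ifs at this <;> linarith
  obtain ⟨F, hF, h1, -⟩ := maxfun G x M D φ φ hφ0 hφ0 0
  refine ⟨F, ?_⟩
  have h2 := h1 v (by simp)
  have h3 := hφ (Sum.inl v)
  rw [if_pos rfl] at h3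
  have := eff_sub_ptV _ hF (Sum.inl v) (by linarith)
  convert this using 1
  abel

lemma dom_mid (G : MGraph V E) (x : V) (M : ℕ) (D : V ⊕ (E × Fin (2 - 1)) → ℤ)
    (hD : (G.subdiv 2).EffRankOne D) (e : E) :
    Dom (wedge G x M) (emb M D) (ptE (Sum.inl e) hf) := by
  obtain ⟨φ, hφ⟩ := hD.2 (md e)
  have hφ0 : ∀ w, 0 ≤ D w - (G.subdiv 2).lap φ w := by
    intro w
    have := hφ w
    split_ifs at this <;> linarith
  obtain ⟨F, hF, -, -, h1, -⟩ := maxfun G x M D φ φ hφ0 hφ0 0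
  refine ⟨F, ?_⟩
  have h2 := h1 e (by simp)
  have h3 := hφ (md e)
  rw [if_pos rfl] at h3
  have := eff_sub_ptE _ hF (Sum.inl e) hf (by linarith)
  convert this using 1
  abel

lemma dom_low (G : MGraph V E) (x : V) (M : ℕ) (D : V ⊕ (E × Fin (2 - 1)) → ℤ)
    (hD : (G.subdiv 2).EffRankOne D) (e : E) (t : I) (ht : (t : ℝ) < 1 / 2) :
    Dom (wedge G x M) (emb M D) (ptE (Sum.inl e) t) := by
  have ht0 := t.2.1
  obtain ⟨φ, hφ⟩ := hD.2 (Sum.inl (G.src e))
  obtain ⟨ψ, hψ⟩ := hD.2 (md e)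
  have hφ0 : ∀ w, 0 ≤ D w - (G.subdiv 2).lap φ w := by
    intro w
    have := hφ w
    split_ifs at this <;> linarith
  have hψ0 : ∀ w, 0 ≤ D w - (G.subdiv 2).lap ψ w := by
    intro w
    have := hψ w
    split_ifs at this <;> linarith
  by_cases hs : φ (md e) - φ (Sum.inl (G.src e)) = ψ (md e) - ψ (Sum.inl (G.src e))
  · obtain ⟨F, hF, h1, -, -, h4, -⟩ := maxfun G x M D φ ψ hφ0 hψ0
      ((φ (Sum.inl (G.src e)) : ℝ) / 2 - ψ (Sum.inl (G.src e)) / 2)
    have a1 := h1 (G.src e) (by linarith)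
    have hs' : (φ (md e) : ℝ) - φ (Sum.inl (G.src e)) = ψ (md e) - ψ (Sum.inl (G.src e)) := by
      exact_mod_cast hs
    have a4 := h4 e (by linarith)
    have b1 := hφ (Sum.inl (G.src e))
    have b4 := hψ (md e)
    rw [if_pos rfl] at b1 b4
    have c1 := eff_sub_both _ hF (Sum.inl (G.src e)) (Sum.inl e) hf (by linarith) (by linarith)
    have c2 : Dom (wedge G x M) (emb M D) (ptV (Sum.inl (G.src e)) + ptE (Sum.inl e) hf) := by
      refine ⟨F, ?_⟩
      convert c1 using 1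
      abel
    refine c2.trans ?_
    have c3 := two (wedge G x M) (Sum.inl e) 0 (1 / 2) t (1 / 2 - t) ⟨le_rfl, by norm_num⟩
      ⟨by norm_num, by norm_num⟩ ⟨by linarith, by linarith⟩ ⟨by linarith, by linarith⟩ (by ring)
    rw [pe_low _ _ 0 le_rfl, pe_mid _ _ t] at c3
    have c4 : pe (wedge G x M) (Sum.inl e) (1 / 2) = ptE (Sum.inl e) hf := pe_mid _ _ hf
    rw [c4] at c3
    refine c3.trans (Dom.of_eff ?_)
    have : (ptE (Sum.inl e) t + pe (wedge G x M) (Sum.inl e) (1 / 2 - t) - ptE (Sum.inl e) t :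
        MDiv (V ⊕ Fin M) (E ⊕ KE M)) = pe (wedge G x M) (Sum.inl e) (1 / 2 - t) := by abel
    rw [this]
    exact eff_pe _ _ _
  · obtain ⟨F, hF, -, -, -, -, h5, -⟩ := maxfun G x M D φ ψ hφ0 hψ0
      ((φ (Sum.inl (G.src e)) : ℝ) / 2 + (φ (md e) - φ (Sum.inl (G.src e)) : ℤ) * (t : ℝ) -
        ψ (Sum.inl (G.src e)) / 2 - (ψ (md e) - ψ (Sum.inl (G.src e)) : ℤ) * (t : ℝ))
    have a5 := h5 e t ht hs (by ring)
    refine ⟨F, ?_⟩
    have := eff_sub_ptE _ hF (Sum.inl e) t a5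
    convert this using 1
    abel

lemma dom_high (G : MGraph V E) (x : V) (M : ℕ) (D : V ⊕ (E × Fin (2 - 1)) → ℤ)
    (hD : (G.subdiv 2).EffRankOne D) (e : E) (t : I) (ht : 1 / 2 < (t : ℝ)) :
    Dom (wedge G x M) (emb M D) (ptE (Sum.inl e) t) := by
  have ht0 := t.2.2
  obtain ⟨φ, hφ⟩ := hD.2 (Sum.inl (G.tgt e))
  obtain ⟨ψ, hψ⟩ := hD.2 (md e)
  have hφ0 : ∀ w, 0 ≤ D w - (G.subdiv 2).lap φ w := by
    intro w
    have := hφ w
    split_ifs at this <;> linarith
  have hψ0 : ∀ w, 0 ≤ D w - (G.subdiv 2).lap ψ w := by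
    intro w
    have := hψ w
    split_ifs at this <;> linarith
  by_cases hs : φ (Sum.inl (G.tgt e)) - φ (md e) = ψ (Sum.inl (G.tgt e)) - ψ (md e)
  · obtain ⟨F, hF, h1, -, -, h4, -⟩ := maxfun G x M D φ ψ hφ0 hψ0
      ((φ (Sum.inl (G.tgt e)) : ℝ) / 2 - ψ (Sum.inl (G.tgt e)) / 2)
    have a1 := h1 (G.tgt e) (by linarith)
    have hs' : (φ (Sum.inl (G.tgt e)) : ℝ) - φ (md e) = ψ (Sum.inl (G.tgt e)) - ψ (md e) := by
      exact_mod_cast hs
    have a4 := h4 e (by linarith)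
    have b1 := hφ (Sum.inl (G.tgt e))
    have b4 := hψ (md e)
    rw [if_pos rfl] at b1 b4
    have c1 := eff_sub_both _ hF (Sum.inl (G.tgt e)) (Sum.inl e) hf (by linarith) (by linarith)
    have c2 : Dom (wedge G x M) (emb M D) (ptV (Sum.inl (G.tgt e)) + ptE (Sum.inl e) hf) := by
      refine ⟨F, ?_⟩
      convert c1 using 1
      abel
    refine c2.trans ?_
    have c3 := two (wedge G x M) (Sum.inl e) 1 (1 / 2) t (3 / 2 - t) ⟨by norm_num, le_rfl⟩
      ⟨by norm_num, by norm_num⟩ ⟨by linarith, by linarith⟩ ⟨by linarith, by linarith⟩ (by ring)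
    rw [pe_high _ _ 1 le_rfl, pe_mid _ _ t] at c3
    have c4 : pe (wedge G x M) (Sum.inl e) (1 / 2) = ptE (Sum.inl e) hf := pe_mid _ _ hf
    rw [c4] at c3
    refine c3.trans (Dom.of_eff ?_)
    have : (ptE (Sum.inl e) t + pe (wedge G x M) (Sum.inl e) (3 / 2 - t) - ptE (Sum.inl e) t :
        MDiv (V ⊕ Fin M) (E ⊕ KE M)) = pe (wedge G x M) (Sum.inl e) (3 / 2 - t) := by abel
    rw [this]
    exact eff_pe _ _ _
  · obtain ⟨F, hF, -, -, -, -, -, h6⟩ := maxfun G x M D φ ψ hφ0 hψ0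
      ((φ (md e) : ℝ) / 2 + (φ (Sum.inl (G.tgt e)) - φ (md e) : ℤ) * ((t : ℝ) - 1 / 2) -
        ψ (md e) / 2 - (ψ (Sum.inl (G.tgt e)) - ψ (md e) : ℤ) * ((t : ℝ) - 1 / 2))
    have a6 := h6 e t ht hs (by ring)
    refine ⟨F, ?_⟩
    have := eff_sub_ptE _ hF (Sum.inl e) t a6
    convert this using 1
    abel

/-- a divisor of rank at least one on the first subdivision covers all points of the first part -/
theorem dom_edge (G : MGraph V E) (x : V) (M : ℕ) (D : V ⊕ (E × Fin (2 - 1)) → ℤ)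
    (hD : (G.subdiv 2).EffRankOne D) (e : E) (t : I) :
    Dom (wedge G x M) (emb M D) (ptE (Sum.inl e) t) := by
  rcases lt_trichotomy (t : ℝ) (1 / 2) with h | h | h
  · exact dom_low G x M D hD e t h
  · have : t = hf := Subtype.ext h
    rw [this]
    exact dom_mid G x M D hD e
  · exact dom_high G x M D hD e t h

end Pool.Agent.V11142.WG
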