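import Pool.Agent.V11142.WG.Moves

/-!
# Covering the points of the complete graph in the wedge
-/

set_option autoImplicit false

namespace Pool.Agent.V11142.WG

open Pool.Agent.H997R3.Gon Finset

lemma star_sum {A : Type} [AddCommMonoid A] {M : ℕ} (k : Fin (M + 1)) (g : Fin (M + 1) → A) :
    ∑ p : KE M, ((if p.1.1 = k then g p.1.2 else 0) + (if p.1.2 = k then g p.1.1 else 0)) =
      ∑ j ∈ univ.erase k, g j := by
  classical
  have h1 : ∑ p : KE M, ((if p.1.1 = k then g p.1.2 else 0) +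
      (if p.1.2 = k then g p.1.1 else 0)) = ∑ p ∈ univ.filter
        (fun p : Fin (M + 1) × Fin (M + 1) => p.1 < p.2),
        ((if p.1 = k then g p.2 else 0) + (if p.2 = k then g p.1 else 0)) :=
    (Finset.sum_subtype (univ.filter (fun p : Fin (M + 1) × Fin (M + 1) => p.1 < p.2))
      (by simp) (fun p => (if p.1 = k then g p.2 else 0) + (if p.2 = k then g p.1 else 0))).symm
  rw [h1, Finset.sum_filter, Fintype.sum_prod_type]
  have h2 : ∀ i j : Fin (M + 1), (if i < j then ((if i = k then g j else 0) +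
      (if j = k then g i else 0)) else 0) = (if i = k then (if k < j then g j else 0) else 0) +
        (if j = k then (if i < k then g i else 0) else 0) := by
    intro i j
    by_cases hi : i = k <;> by_cases hj : j = k
    · subst hi; subst hj; simp
    · subst hi; simp [hj]
    · subst hj; simp [hi]
    · simp [hi, hj]
  simp only [h2, Finset.sum_add_distrib]
  rw [Finset.sum_comm]
  simp only [Finset.sum_ite_eq', mem_univ, if_true]
  rw [← Finset.sum_add_distrib]
  rw [← Finset.sum_erase_add univ _ (mem_univ k)]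
  simp only [lt_irrefl, if_false, add_zero]
  refine Finset.sum_congr rfl fun j hj => ?_
  have hne := Finset.ne_of_mem_erase hj
  rcases lt_or_gt_of_ne hne with h | h
  · simp [h, not_lt.2 h.le]
  · simp [h, not_lt.2 h.le]

variable {V E : Type} [Fintype V] [DecidableEq V] [Fintype E]

lemma eff_sum {ι : Type} (s : Finset ι) (g : ι → MDiv V E) (hg : ∀ i, Eff (g i)) :
    Eff (∑ i ∈ s, g i) := by
  classical
  induction s using Finset.induction_on with
  | empty => simpa using Eff.zero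
  | insert a s ha ih => rw [Finset.sum_insert ha]; exact (hg a).add ih

lemma sum_domS {ι : Type} [DecidableEq ι] (s t : Finset ι) (g : ι → MDiv V E)
    (hg : ∀ i, Eff (g i)) (h : t ⊆ s) : Eff (∑ i ∈ s, g i - ∑ i ∈ t, g i) := by
  rw [← Finset.sum_sdiff h, add_sub_cancel_right]
  exact eff_sum _ _ hg

variable (G : MGraph V E) (x : V) (M : ℕ)

/-- incidence of a vertex of the complete graph with an edge of the wedge -/
def Tt (a : Fin (M + 1)) : E ⊕ KE M → Prop :=
  Sum.elim (fun _ => False) (fun p => p.1.1 = a ∨ p.1.2 = a)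

instance (a : Fin (M + 1)) : DecidablePred (Tt (E := E) M a) := by
  rintro (e | p)
  · exact inferInstanceAs (Decidable False)
  · exact inferInstanceAs (Decidable (p.1.1 = a ∨ p.1.2 = a))

/-- the coordinate, on an edge of the complete graph, of the point at distance `δ` from `a` -/
noncomputable def pos (a : Fin (M + 1)) (p : KE M) (δ : ℝ) : ℝ := if p.1.1 = a then δ else 1 - δ

/-- the star of radius `δ` at the vertex `a` of the complete graph -/
noncomputable def St (a : Fin (M + 1)) (δ : ℝ) : MDiv (V ⊕ Fin M) (E ⊕ KE M) :=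
  ∑ e : E ⊕ KE M, if Tt M a e then
    pe (wedge G x M) e (Sum.elim (fun _ => 0) (fun p => pos M a p δ) e) else 0

lemma St_move (a : Fin (M + 1)) (δ δ' : ℝ) (h : 0 ≤ δ ∧ δ ≤ 1) (h' : 0 ≤ δ' ∧ δ' ≤ 1) :
    Dom (wedge G x M) (St G x M a δ) (St G x M a δ') := by
  classical
  have hval : ∀ i : Fin (M + 1), (Sum.elim (fun _ => if (0 : Fin (M + 1)) = a then δ' - δ else 0)
      (fun k => if Fin.succ k = a then δ' - δ else 0) : V ⊕ Fin M → ℝ) (kap x i) =
        if i = a then δ' - δ else 0 := by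
    intro i
    refine Fin.cases ?_ (fun k => ?_) i
    · rfl
    · rfl
  have hb : ∀ (d : ℝ), 0 ≤ d ∧ d ≤ 1 → ∀ e : E ⊕ KE M,
      0 ≤ (Sum.elim (fun _ => 0) (fun p => pos M a p d) e : ℝ) ∧
      (Sum.elim (fun _ => 0) (fun p => pos M a p d) e : ℝ) ≤ 1 := by
    intro d hd e
    rcases e with e | p
    · simp
    · simp only [Sum.elim_inr, pos]
      split_ifs
      · exact hd
      · exact ⟨by linarith [hd.2], by linarith [hd.1]⟩
  refine multi (wedge G x M) (Tt M a) _ _ (hb δ h) (hb δ' h')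
    (Sum.elim (fun _ => if (0 : Fin (M + 1)) = a then δ' - δ else 0)
      (fun k => if Fin.succ k = a then δ' - δ else 0)) ?_ ?_
  · rintro (e | p) he
    · exact absurd he (by simp [Tt])
    · show (Sum.elim (fun _ => if (0 : Fin (M + 1)) = a then δ' - δ else 0)
        (fun k => if Fin.succ k = a then δ' - δ else 0) : V ⊕ Fin M → ℝ) (kap x p.1.2) -
        (Sum.elim (fun _ => if (0 : Fin (M + 1)) = a then δ' - δ else 0)
        (fun k => if Fin.succ k = a then δ' - δ else 0) : V ⊕ Fin M → ℝ) (kap x p.1.1) =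
        pos M a p δ - pos M a p δ'
      rw [hval, hval]
      have hne := ne_of_lt p.2
      have he' : p.1.1 = a ∨ p.1.2 = a := he
      unfold pos
      rcases he' with h1 | h1
      · have h2 : p.1.2 ≠ a := fun h => hne (h1.trans h.symm)
        rw [if_pos h1, if_neg h2, if_pos h1, if_pos h1]
        ring
      · have h2 : p.1.1 ≠ a := fun h => hne (h.trans h1.symm)
        rw [if_pos h1, if_neg h2, if_neg h2, if_neg h2]
        ring
  · rintro (e | p) he
    · show (if (0 : Fin (M + 1)) = a then δ' - δ else 0) -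
        (if (0 : Fin (M + 1)) = a then δ' - δ else 0) = 0
      ring
    · show (Sum.elim (fun _ => if (0 : Fin (M + 1)) = a then δ' - δ else 0)
        (fun k => if Fin.succ k = a then δ' - δ else 0) : V ⊕ Fin M → ℝ) (kap x p.1.2) -
        (Sum.elim (fun _ => if (0 : Fin (M + 1)) = a then δ' - δ else 0)
        (fun k => if Fin.succ k = a then δ' - δ else 0) : V ⊕ Fin M → ℝ) (kap x p.1.1) = 0
      rw [hval, hval]
      have he' : ¬ (p.1.1 = a ∨ p.1.2 = a) := he
      push Not at he'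
      rw [if_neg he'.1, if_neg he'.2]
      ring

lemma St_one (a : Fin (M + 1)) :
    St G x M a 1 = ∑ j ∈ univ.erase a, ptV (kap x j) := by
  rw [← star_sum]
  unfold St
  rw [Fintype.sum_sum_type]
  have z : ∑ e : E, (if Tt M a (Sum.inl e : E ⊕ KE M) then pe (wedge G x M) (Sum.inl e)
      (Sum.elim (fun _ => 0) (fun p => pos M a p 1) (Sum.inl e : E ⊕ KE M)) else 0) = 0 := by
    refine Finset.sum_eq_zero fun e _ => ?_
    rw [if_neg (by simp [Tt])]
  rw [z, zero_add]
  refine Finset.sum_congr rfl fun p _ => ?_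
  have hne := ne_of_lt p.2
  by_cases h1 : p.1.1 = a
  · have h2 : p.1.2 ≠ a := fun h => hne (h1.trans h.symm)
    rw [if_pos (show Tt (E := E) M a (Sum.inr p) from Or.inl h1), if_pos h1, if_neg h2, add_zero]
    simp only [Sum.elim_inr, pos, if_pos h1]
    exact pe_high _ _ _ le_rfl
  · by_cases h2 : p.1.2 = a
    · rw [if_pos (show Tt (E := E) M a (Sum.inr p) from Or.inr h2), if_neg h1, if_pos h2, zero_add]
      simp only [Sum.elim_inr, pos, if_neg h1]
      exact pe_low _ _ _ (by norm_num)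
    · rw [if_neg (show ¬ Tt M a (Sum.inr p) from fun h => h.elim h1 h2), if_neg h1, if_neg h2]
      simp

lemma St_zero (a : Fin (M + 1)) : St G x M a 0 = M • ptV (kap x a) := by
  have hst := star_sum a (fun _ : Fin (M + 1) =>
    (ptV (kap x a) : MDiv (V ⊕ Fin M) (E ⊕ KE M)))
  rw [Finset.sum_const, Finset.card_erase_of_mem (mem_univ a), Finset.card_univ,
    Fintype.card_fin, Nat.add_sub_cancel] at hst
  rw [← hst]
  unfold St
  rw [Fintype.sum_sum_type]
  have z : ∑ e : E, (if Tt M a (Sum.inl e : E ⊕ KE M) then pe (wedge G x M) (Sum.inl e)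
      (Sum.elim (fun _ => 0) (fun p => pos M a p 0) (Sum.inl e : E ⊕ KE M)) else 0) = 0 := by
    refine Finset.sum_eq_zero fun e _ => ?_
    rw [if_neg (by simp [Tt])]
  rw [z, zero_add]
  refine Finset.sum_congr rfl fun p _ => ?_
  have hne := ne_of_lt p.2
  by_cases h1 : p.1.1 = a
  · have h2 : p.1.2 ≠ a := fun h => hne (h1.trans h.symm)
    rw [if_pos (show Tt (E := E) M a (Sum.inr p) from Or.inl h1), if_pos h1, if_neg h2, add_zero]
    simp only [Sum.elim_inr, pos, if_pos h1]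
    rw [pe_low _ _ _ le_rfl]
    show ptV (kap x p.1.1) = _
    rw [h1]
  · by_cases h2 : p.1.2 = a
    · rw [if_pos (show Tt (E := E) M a (Sum.inr p) from Or.inr h2), if_neg h1, if_pos h2, zero_add]
      simp only [Sum.elim_inr, pos, if_neg h1]
      rw [pe_high _ _ _ (by norm_num)]
      show ptV (kap x p.1.2) = _
      rw [h2]
    · rw [if_neg (show ¬ Tt M a (Sum.inr p) from fun h => h.elim h1 h2), if_neg h1, if_neg h2]
      simp

/-- the divisor with one chip on every vertex of the complete graph -/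
noncomputable def ones : MDiv (V ⊕ Fin M) (E ⊕ KE M) :=
  ∑ j : Fin (M + 1), ptV (kap x j)

lemma ones_eq (a : Fin (M + 1)) : ones (E := E) x M = ptV (kap x a) + St G x M a 1 := by
  rw [St_one]
  exact (Finset.add_sum_erase univ (fun j => ptV (kap x j)) (mem_univ a)).symm

lemma dom_ones : Dom (wedge G x M) ((M + 1) • ptV (Sum.inl x)) (ones x M) := by
  rw [ones_eq G x M 0, succ_nsmul, add_comm (ptV (kap x 0)) (St G x M 0 1)]
  refine Dom.add ?_ (Dom.refl _)
  have := St_move G x M 0 0 1 ⟨le_rfl, by norm_num⟩ ⟨by norm_num, le_rfl⟩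
  rw [St_zero] at this
  exact this

lemma dom_star (a : Fin (M + 1)) (δ : ℝ) (h : 0 ≤ δ ∧ δ ≤ 1) :
    Dom (wedge G x M) ((M + 1) • ptV (Sum.inl x)) (ptV (kap x a) + St G x M a δ) := by
  refine (dom_ones G x M).trans ?_
  rw [ones_eq G x M a]
  exact Dom.add (Dom.refl _) (St_move G x M a 1 δ ⟨by norm_num, le_rfl⟩ h)

/-- the summand of a star -/
lemma St_ge (a : Fin (M + 1)) (δ : ℝ) (S : Finset (KE M)) (hS : ∀ p ∈ S, p.1.1 = a ∨ p.1.2 = a) :
    Eff (St G x M a δ - ∑ p ∈ S, pe (wedge G x M) (Sum.inr p) (pos M a p δ)) := by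
  classical
  have h := sum_domS univ (S.map ⟨Sum.inr, Sum.inr_injective⟩)
    (fun e : E ⊕ KE M => if Tt M a e then
    pe (wedge G x M) e (Sum.elim (fun _ => 0) (fun p => pos M a p δ) e) else 0)
    (fun e => by
      show Eff (if Tt M a e then _ else _)
      split_ifs
      · exact eff_pe _ _ _
      · exact Eff.zero) (subset_univ _)
  have e2 : ∑ e ∈ S.map ⟨Sum.inr, Sum.inr_injective⟩, (if Tt M a e then
    pe (wedge G x M) e (Sum.elim (fun _ => 0) (fun p => pos M a p δ) e) else 0) =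
      ∑ p ∈ S, pe (wedge G x M) (Sum.inr p) (pos M a p δ) := by
    rw [Finset.sum_map]
    refine Finset.sum_congr rfl fun p hp => ?_
    exact if_pos (show Tt (E := E) M a (Sum.inr p) from hS p hp)
  rw [e2] at h
  exact h

lemma dom_of_ge {W F : Type} [Fintype W] [DecidableEq W] [Fintype F] {H : MGraph W F}
    {D P Q : MDiv W F} (h : Dom H D P) (h' : Eff (P - Q)) : Dom H D Q :=
  h.trans (Dom.of_eff h')

lemma pe_src (p : KE M) : pe (wedge G x M) (Sum.inr p) 0 = ptV (kap x p.1.1) :=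
  pe_low _ _ _ le_rfl

lemma pe_tgt (p : KE M) : pe (wedge G x M) (Sum.inr p) 1 = ptV (kap x p.1.2) :=
  pe_high _ _ _ le_rfl

lemma pe_pos_zero (a : Fin (M + 1)) (p : KE M) (h : p.1.1 = a ∨ p.1.2 = a) :
    pe (wedge G x M) (Sum.inr p) (pos M a p 0) = ptV (kap x a) := by
  unfold pos
  split_ifs with h1
  · rw [pe_src, h1]
  · rw [sub_zero, pe_tgt, h.resolve_left h1]

lemma pos_mem (a : Fin (M + 1)) (p : KE M) (δ : ℝ) (h : 0 ≤ δ ∧ δ ≤ 1) :
    0 ≤ pos M a p δ ∧ pos M a p δ ≤ 1 := by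
  unfold pos
  split_ifs
  · exact h
  · exact ⟨by linarith [h.2], by linarith [h.1]⟩

lemma same_edge (p : KE M) (s t : ℝ) (hs : 0 ≤ s ∧ s ≤ 1) (ht : 0 ≤ t ∧ t ≤ 1) :
    Dom (wedge G x M) ((M + 1) • ptV (Sum.inl x))
      (pe (wedge G x M) (Sum.inr p) s + pe (wedge G x M) (Sum.inr p) t) := by
  have hne := ne_of_lt p.2
  rcases le_total (s + t) 1 with h | h
  · have hb : 0 ≤ s + t ∧ s + t ≤ 1 := ⟨by linarith [hs.1, ht.1], h⟩
    have h1 := dom_star G x M p.1.1 (s + t) hb
    have h2 := St_ge G x M p.1.1 (s + t) {p} (by simp)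
    rw [Finset.sum_singleton] at h2
    have h3 : pos M p.1.1 p (s + t) = s + t := by simp [pos]
    rw [h3] at h2
    have h4 := h1.trans (Dom.add (Dom.refl (ptV (kap x p.1.1))) (Dom.of_eff h2))
    rw [← pe_src] at h4
    exact h4.trans (two _ _ _ _ _ _ ⟨le_rfl, by norm_num⟩ hb hs ht (by ring))
  · have hb : 0 ≤ 2 - s - t ∧ 2 - s - t ≤ 1 := ⟨by linarith [hs.2, ht.2], by linarith⟩
    have h1 := dom_star G x M p.1.2 (2 - s - t) hb
    have h2 := St_ge G x M p.1.2 (2 - s - t) {p} (by simp)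
    rw [Finset.sum_singleton] at h2
    have h3 : pos M p.1.2 p (2 - s - t) = s + t - 1 := by
      simp only [pos, if_neg hne]
      ring
    rw [h3] at h2
    have h4 := h1.trans (Dom.add (Dom.refl (ptV (kap x p.1.2))) (Dom.of_eff h2))
    rw [← pe_tgt] at h4
    exact h4.trans (two _ _ _ _ _ _ ⟨by norm_num, le_rfl⟩
      ⟨by linarith, by linarith [hs.2, ht.2]⟩ hs ht (by ring))

lemma adj_edge_aux (c : Fin (M + 1)) (p q : KE M) (hpq : p ≠ q) (hp : p.1.1 = c ∨ p.1.2 = c)
    (hq : q.1.1 = c ∨ q.1.2 = c) (s t : ℝ) (hs : 0 ≤ s ∧ s ≤ 1) (ht : 0 ≤ t ∧ t ≤ 1)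
    (hst : s ≤ t) :
    Dom (wedge G x M) ((M + 1) • ptV (Sum.inl x))
      (pe (wedge G x M) (Sum.inr p) (pos M c p s) +
        pe (wedge G x M) (Sum.inr q) (pos M c q t)) := by
  classical
  have h1 := dom_star G x M c t ht
  have h2 := St_ge G x M c t {p, q} (by
    intro r hr
    rw [mem_insert, mem_singleton] at hr
    rcases hr with rfl | rfl
    · exact hp
    · exact hq)
  rw [Finset.sum_pair hpq] at h2
  have h4 := h1.trans (Dom.add (Dom.refl (ptV (kap x c))) (Dom.of_eff h2))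
  rw [← add_assoc] at h4
  refine h4.trans (Dom.add ?_ (Dom.refl _))
  rw [← pe_pos_zero G x M c p hp]
  have hd : 0 ≤ t - s ∧ t - s ≤ 1 := ⟨by linarith, by linarith [hs.1, ht.2]⟩
  have h5 := two (wedge G x M) (Sum.inr p) (pos M c p 0) (pos M c p t) (pos M c p s)
    (pos M c p (t - s)) (pos_mem M c p 0 ⟨le_rfl, by norm_num⟩) (pos_mem M c p t ht)
    (pos_mem M c p s hs) (pos_mem M c p (t - s) hd) (by unfold pos; split_ifs <;> ring)
  refine dom_of_ge h5 ?_
  rw [add_sub_cancel_left]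
  exact eff_pe _ _ _

lemma adj_edge (c : Fin (M + 1)) (p q : KE M) (hpq : p ≠ q) (hp : p.1.1 = c ∨ p.1.2 = c)
    (hq : q.1.1 = c ∨ q.1.2 = c) (s t : ℝ) (hs : 0 ≤ s ∧ s ≤ 1) (ht : 0 ≤ t ∧ t ≤ 1) :
    Dom (wedge G x M) ((M + 1) • ptV (Sum.inl x))
      (pe (wedge G x M) (Sum.inr p) s + pe (wedge G x M) (Sum.inr q) t) := by
  have hpp : ∀ (r : KE M) (u : ℝ), pos M c r (pos M c r u) = u := by
    intro r u
    unfold pos
    split_ifs <;> ring
  have e1 := hpp p s
  have e2 := hpp q t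
  rw [← e1, ← e2]
  have hs' := pos_mem M c p s hs
  have ht' := pos_mem M c q t ht
  rcases le_total (pos M c p s) (pos M c q t) with h | h
  · exact adj_edge_aux G x M c p q hpq hp hq _ _ hs' ht' h
  · rw [add_comm (pe (wedge G x M) (Sum.inr p) _) (pe (wedge G x M) (Sum.inr q) _)]
    exact adj_edge_aux G x M c q p (Ne.symm hpq) hq hp _ _ ht' hs' h

lemma disj_edge (p q : KE M) (h1 : p.1.1 ≠ q.1.1) (h2 : p.1.1 ≠ q.1.2) (h3 : p.1.2 ≠ q.1.1)
    (h4 : p.1.2 ≠ q.1.2) (s t : ℝ) (hs : 0 ≤ s ∧ s ≤ 1) (ht : 0 ≤ t ∧ t ≤ 1) :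
    Dom (wedge G x M) ((M + 1) • ptV (Sum.inl x))
      (pe (wedge G x M) (Sum.inr p) s + pe (wedge G x M) (Sum.inr q) t) := by
  classical
  have hp := ne_of_lt p.2
  have hq := ne_of_lt q.2
  have h5 := sum_domS (E := E ⊕ KE M) univ {p.1.1, p.1.2, q.1.1, q.1.2}
    (fun j => ptV (kap x j)) (fun j => eff_ptV _) (subset_univ _)
  rw [Finset.sum_insert (by simp [hp, h1, h2]), Finset.sum_insert (by simp [h3, h4]),
    Finset.sum_insert (by simp [hq]), Finset.sum_singleton] at h5
  have h6 := dom_of_ge (dom_ones G x M) h5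
  rw [← add_assoc, ← pe_src G x M p, ← pe_tgt G x M p, ← pe_src G x M q, ← pe_tgt G x M q] at h6
  refine h6.trans (Dom.add ?_ ?_)
  · refine dom_of_ge (two (wedge G x M) (Sum.inr p) 0 1 s (1 - s) ⟨le_rfl, by norm_num⟩
      ⟨by norm_num, le_rfl⟩ hs ⟨by linarith [hs.2], by linarith [hs.1]⟩ (by ring)) ?_
    rw [add_sub_cancel_left]
    exact eff_pe _ _ _
  · refine dom_of_ge (two (wedge G x M) (Sum.inr q) 0 1 t (1 - t) ⟨le_rfl, by norm_num⟩
      ⟨by norm_num, le_rfl⟩ ht ⟨by linarith [ht.2], by linarith [ht.1]⟩ (by ring)) ?_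
    rw [add_sub_cancel_left]
    exact eff_pe _ _ _

/-- the divisor `(M + 1) x` covers any two points of the complete graph -/
theorem cover_two (p q : KE M) (s t : ℝ) (hs : 0 ≤ s ∧ s ≤ 1) (ht : 0 ≤ t ∧ t ≤ 1) :
    Dom (wedge G x M) ((M + 1) • ptV (Sum.inl x))
      (pe (wedge G x M) (Sum.inr p) s + pe (wedge G x M) (Sum.inr q) t) := by
  by_cases hpq : p = q
  · subst hpq
    exact same_edge G x M p s t hs ht
  · by_cases h1 : p.1.1 = q.1.1
    · exact adj_edge G x M p.1.1 p q hpq (Or.inl rfl) (Or.inl h1.symm) s t hs ht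
    · by_cases h2 : p.1.1 = q.1.2
      · exact adj_edge G x M p.1.1 p q hpq (Or.inl rfl) (Or.inr h2.symm) s t hs ht
      · by_cases h3 : p.1.2 = q.1.1
        · exact adj_edge G x M p.1.2 p q hpq (Or.inr rfl) (Or.inl h3.symm) s t hs ht
        · by_cases h4 : p.1.2 = q.1.2
          · exact adj_edge G x M p.1.2 p q hpq (Or.inr rfl) (Or.inr h4.symm) s t hs ht
          · exact disj_edge G x M p q h1 h2 h3 h4 s t hs ht

/-- the divisor `M x` covers any point of the complete graph -/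
theorem cover_one (p : KE M) (s : ℝ) (hs : 0 ≤ s ∧ s ≤ 1) :
    Dom (wedge G x M) (M • ptV (Sum.inl x)) (pe (wedge G x M) (Sum.inr p) s) := by
  classical
  have h0 : (M • ptV (Sum.inl x) : MDiv (V ⊕ Fin M) (E ⊕ KE M)) = St G x M 0 0 :=
    (St_zero G x M 0).symm
  rw [h0]
  by_cases h1 : p.1.1 = 0
  · refine dom_of_ge (St_move G x M 0 0 s ⟨le_rfl, by norm_num⟩ hs) ?_
    have h2 := St_ge G x M 0 s {p} (by
      intro r hr
      rw [mem_singleton] at hr
      subst hr
      exact Or.inl h1)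
    rw [Finset.sum_singleton] at h2
    have h3 : pos M 0 p s = s := by simp [pos, h1]
    rw [h3] at h2
    exact h2
  · have h2 : p.1.2 ≠ 0 := by
      intro h
      have := p.2
      rw [h] at this
      exact absurd this (Fin.not_lt_zero _)
    have h3 := St_move G x M 0 0 1 ⟨le_rfl, by norm_num⟩ ⟨by norm_num, le_rfl⟩
    rw [St_one] at h3
    have h5 := sum_domS (E := E ⊕ KE M) (univ.erase 0) {p.1.1, p.1.2}
      (fun j => ptV (kap x j)) (fun j => eff_ptV _) (by
        intro r hr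
        rw [mem_insert, mem_singleton] at hr
        rcases hr with rfl | rfl
        · exact Finset.mem_erase.2 ⟨h1, mem_univ _⟩
        · exact Finset.mem_erase.2 ⟨h2, mem_univ _⟩)
    rw [Finset.sum_pair (ne_of_lt p.2)] at h5
    have h6 := dom_of_ge h3 h5
    rw [← pe_src G x M p, ← pe_tgt G x M p] at h6
    refine h6.trans (dom_of_ge (two (wedge G x M) (Sum.inr p) 0 1 s (1 - s)
      ⟨le_rfl, by norm_num⟩ ⟨by norm_num, le_rfl⟩ hs ⟨by linarith [hs.2], by linarith [hs.1]⟩
      (by ring)) ?_)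
    rw [add_sub_cancel_left]
    exact eff_pe _ _ _

end Pool.Agent.V11142.WG
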