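import Mathlib
import Pool.Agent.H997R3.Gon.Defs

/-!
# Divisors on a finite multigraph and on its metric graph
-/

set_option autoImplicit false

namespace Pool.Agent.V11142.WG

open Pool.Agent.H997R3.Gon Finset

/-- The interior points of a segment of length one. -/
abbrev I : Type := Set.Ioo (0 : ℝ) 1

/-- The value at `t` of the continuous piecewise linear function on `[0, 1]` with value `a` at
`0`, slope `m` at `0`, and in which the slope increases by `c s` at the interior point `s`. -/
noncomputable def plVal (a : ℝ) (m : ℤ) (c : I →₀ ℤ) (t : ℝ) : ℝ :=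
  a + m * t + c.sum fun s k => (k : ℝ) * max (t - s) 0

section Finite

variable {V E : Type} [Fintype V] [DecidableEq V] [Fintype E]

/-- Linear equivalence of divisors on the graph `G`. -/
def Lin (G : MGraph V E) (D D' : V → ℤ) : Prop := ∃ f : V → ℤ, ∀ v, D' v = D v - G.lap f v

/-- The rank of `D` on the graph `G` is at least `r`: for every effective divisor `A` of degree
`r`, the divisor `D - A` is linearly equivalent to an effective divisor. -/
def RankGE (G : MGraph V E) (D : V → ℤ) (r : ℕ) : Prop :=
  ∀ A : V → ℤ, (∀ v, 0 ≤ A v) → ∑ v, A v = (r : ℤ) →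
    ∃ D' : V → ℤ, (∀ v, 0 ≤ D' v) ∧ Lin G (fun v => D v - A v) D'

/-- The `r`-th divisorial gonality of the graph `G`. -/
noncomputable def dgon (G : MGraph V E) (r : ℕ) : ℕ :=
  sInf {d : ℕ | ∃ D : V → ℤ, RankGE G D r ∧ ∑ v, D v = (d : ℤ)}

end Finite

/-- A divisor on the metric graph of a graph with vertex set `V` and edge set `E` (both finite):
an integer at every vertex, and a finitely supported integer function on the interior points of
every edge. -/
abbrev MDiv (V E : Type) : Type := (V → ℤ) × (E → I →₀ ℤ)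

section Metric

variable {V E : Type} [Fintype V] [DecidableEq V] [Fintype E]

/-- The degree of a divisor on the metric graph. -/
noncomputable def deg (D : MDiv V E) : ℤ :=
  ∑ v, D.1 v + ∑ e, (D.2 e).sum fun _ k => k

/-- The divisor is effective. -/
def Eff (D : MDiv V E) : Prop := (∀ v, 0 ≤ D.1 v) ∧ ∀ e t, 0 ≤ D.2 e t

/-- A continuous piecewise linear function with integer slopes on the metric graph of `G`, in
which the edge `e` is a copy of `[0, 1]` with `0` at `src e` and `1` at `tgt e`. It is given by
its values at the vertices and, on every edge, by the slope at the beginning and the changes of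
slope at finitely many interior points; the value that this produces at the end `1` of the edge
must be the value at the vertex `tgt e`. -/
structure RatFun (G : MGraph V E) where
  /-- the values at the vertices -/
  val : V → ℝ
  /-- the slope at the beginning of an edge -/
  slope : E → ℤ
  /-- the changes of slope inside an edge -/
  kink : E → I →₀ ℤ
  /-- continuity at the end of every edge -/
  closes : ∀ e, plVal (val (G.src e)) (slope e) (kink e) 1 = val (G.tgt e)

/-- The divisor of `f`: the sum of the outgoing slopes at every point. At an interior point of an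
edge this is the change of slope; the outgoing slope of the edge `e` at `src e` is `slope e`, and
at `tgt e` it is minus the final slope, which is `slope e` plus the sum of all the changes of
slope. -/
noncomputable def RatFun.div {G : MGraph V E} (f : RatFun G) : MDiv V E :=
  (fun v => ∑ e, ((if G.src e = v then f.slope e else 0) -
    (if G.tgt e = v then f.slope e + (f.kink e).sum fun _ k => k else 0)), f.kink)

/-- Linear equivalence of divisors on the metric graph of `G`. -/
def MLin (G : MGraph V E) (D D' : MDiv V E) : Prop := ∃ f : RatFun G, D' = D + f.div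

/-- The rank of `D` on the metric graph of `G` is at least `r`. -/
def MRankGE (G : MGraph V E) (D : MDiv V E) (r : ℕ) : Prop :=
  ∀ A : MDiv V E, Eff A → deg A = (r : ℤ) → ∃ D' : MDiv V E, Eff D' ∧ MLin G (D - A) D'

/-- The `r`-th divisorial gonality of the metric graph of `G`. -/
noncomputable def mdgon (G : MGraph V E) (r : ℕ) : ℕ :=
  sInf {d : ℕ | ∃ D : MDiv V E, MRankGE G D r ∧ deg D = (d : ℤ)}

end Metric

/-! ### Basic facts -/

/-- the total of a finitely supported function -/
noncomputable def tot (c : I →₀ ℤ) : ℤ := c.sum fun _ k => k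

/-- the moment of a finitely supported function -/
noncomputable def mom (c : I →₀ ℤ) : ℝ := c.sum fun s k => (k : ℝ) * (1 - s)

lemma tot_add (c d : I →₀ ℤ) : tot (c + d) = tot c + tot d :=
  Finsupp.sum_add_index' (fun _ => rfl) (fun _ _ _ => rfl)

lemma tot_single (s : I) (k : ℤ) : tot (Finsupp.single s k) = k := by
  unfold tot
  rw [Finsupp.sum_single_index rfl]

@[simp] lemma tot_zero : tot 0 = 0 := by simp [tot]

lemma tot_neg (c : I →₀ ℤ) : tot (-c) = - tot c := by
  have := tot_add c (-c)
  rw [add_neg_cancel, tot_zero] at this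
  linarith

lemma tot_nonneg (c : I →₀ ℤ) (h : ∀ t, 0 ≤ c t) : 0 ≤ tot c :=
  Finset.sum_nonneg fun t _ => h t

lemma mom_add (c d : I →₀ ℤ) : mom (c + d) = mom c + mom d := by
  unfold mom
  rw [Finsupp.sum_add_index' (fun _ => by simp) (fun _ _ _ => by push_cast; ring)]

lemma mom_single (s : I) (k : ℤ) : mom (Finsupp.single s k) = k * (1 - s) := by
  unfold mom
  rw [Finsupp.sum_single_index (by simp)]

@[simp] lemma mom_zero : mom 0 = 0 := by simp [mom]

lemma plVal_one (a : ℝ) (m : ℤ) (c : I →₀ ℤ) : plVal a m c 1 = a + m + mom c := by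
  unfold plVal mom
  rw [mul_one]
  congr 1
  refine Finset.sum_congr rfl fun s _ => ?_
  have := s.2.2
  show (c s : ℝ) * max (1 - (s : ℝ)) 0 = (c s : ℝ) * (1 - (s : ℝ))
  rw [max_eq_left (by linarith)]

section Metric2

variable {V E : Type} [Fintype V] [DecidableEq V] [Fintype E]

/-- constructor of a rational function from the simplified closing condition -/
noncomputable def mkF (G : MGraph V E) (val : V → ℝ) (slope : E → ℤ) (kink : E → I →₀ ℤ)
    (h : ∀ e, val (G.src e) + slope e + mom (kink e) = val (G.tgt e)) : RatFun G :=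
  ⟨val, slope, kink, fun e => by rw [plVal_one]; exact h e⟩

lemma RatFun.closes' {G : MGraph V E} (f : RatFun G) (e : E) :
    f.val (G.src e) + f.slope e + mom (f.kink e) = f.val (G.tgt e) := by
  rw [← plVal_one]; exact f.closes e

lemma div_fst {G : MGraph V E} (f : RatFun G) (v : V) :
    f.div.1 v = ∑ e, ((if G.src e = v then f.slope e else 0) -
      (if G.tgt e = v then f.slope e + tot (f.kink e) else 0)) := rfl

lemma div_snd {G : MGraph V E} (f : RatFun G) (e : E) : f.div.2 e = f.kink e := rfl

lemma deg_def (D : MDiv V E) : deg D = ∑ v, D.1 v + ∑ e, tot (D.2 e) := rfl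

lemma deg_add (D D' : MDiv V E) : deg (D + D') = deg D + deg D' := by
  simp only [deg_def, Prod.fst_add, Prod.snd_add, Pi.add_apply, tot_add, Finset.sum_add_distrib]
  ring

lemma deg_neg (D : MDiv V E) : deg (-D) = - deg D := by
  simp only [deg_def, Prod.fst_neg, Prod.snd_neg, Pi.neg_apply, tot_neg, Finset.sum_neg_distrib]
  ring

lemma deg_sub (D D' : MDiv V E) : deg (D - D') = deg D - deg D' := by
  rw [sub_eq_add_neg, deg_add, deg_neg]; ring

lemma deg_nonneg (D : MDiv V E) (h : Eff D) : 0 ≤ deg D := by
  rw [deg_def]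
  have h1 : 0 ≤ ∑ v, D.1 v := Finset.sum_nonneg fun v _ => h.1 v
  have h2 : 0 ≤ ∑ e, tot (D.2 e) := Finset.sum_nonneg fun e _ => tot_nonneg _ (h.2 e)
  linarith

lemma deg_div {G : MGraph V E} (f : RatFun G) : deg f.div = 0 := by
  rw [deg_def]
  simp only [div_fst, div_snd]
  rw [Finset.sum_comm, ← Finset.sum_add_distrib]
  refine Finset.sum_eq_zero fun e _ => ?_
  rw [Finset.sum_sub_distrib, Finset.sum_ite_eq, Finset.sum_ite_eq]
  simp

/-- the sum of two rational functions -/
noncomputable def addF {G : MGraph V E} (f g : RatFun G) : RatFun G :=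
  mkF G (fun v => f.val v + g.val v) (fun e => f.slope e + g.slope e)
    (fun e => f.kink e + g.kink e) (fun e => by
      have h1 := f.closes' e
      have h2 := g.closes' e
      simp only [mom_add]
      push_cast
      linarith)

lemma div_addF {G : MGraph V E} (f g : RatFun G) : (addF f g).div = f.div + g.div := by
  refine Prod.ext ?_ ?_
  · funext v
    simp only [Prod.fst_add, Pi.add_apply, div_fst]
    rw [← Finset.sum_add_distrib]
    refine Finset.sum_congr rfl fun e _ => ?_
    simp only [addF, mkF, tot_add]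
    split_ifs <;> ring
  · funext e
    rfl

/-- the zero function -/
noncomputable def zeroF (G : MGraph V E) : RatFun G :=
  mkF G (fun _ => 0) (fun _ => 0) (fun _ => 0) (fun e => by simp)

lemma div_zeroF (G : MGraph V E) : (zeroF G).div = 0 := by
  refine Prod.ext ?_ ?_
  · funext v
    simp only [div_fst, zeroF, mkF]
    simp
  · funext e
    rfl

lemma Eff.add {D D' : MDiv V E} (h : Eff D) (h' : Eff D') : Eff (D + D') :=
  ⟨fun v => by have := h.1 v; have := h'.1 v; simp only [Prod.fst_add, Pi.add_apply]; linarith,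
   fun e t => by
    have := h.2 e t; have := h'.2 e t
    simp only [Prod.snd_add, Pi.add_apply, Finsupp.add_apply]; linarith⟩

lemma Eff.zero : Eff (0 : MDiv V E) := ⟨fun _ => le_rfl, fun _ _ => le_rfl⟩

/-- `D` dominates `P`: the divisor `D - P` is equivalent to an effective one -/
def Dom (G : MGraph V E) (D P : MDiv V E) : Prop := ∃ f : RatFun G, Eff (D - P + f.div)

lemma Dom.add {G : MGraph V E} {D P D' P' : MDiv V E} (h : Dom G D P) (h' : Dom G D' P') :
    Dom G (D + D') (P + P') := by
  obtain ⟨f, hf⟩ := h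
  obtain ⟨g, hg⟩ := h'
  refine ⟨addF f g, ?_⟩
  have := hf.add hg
  rw [div_addF]
  convert this using 1
  abel

lemma Dom.trans {G : MGraph V E} {D P Q : MDiv V E} (h : Dom G D P) (h' : Dom G P Q) :
    Dom G D Q := by
  obtain ⟨f, hf⟩ := h
  obtain ⟨g, hg⟩ := h'
  refine ⟨addF f g, ?_⟩
  have := hf.add hg
  rw [div_addF]
  convert this using 1
  abel

lemma Dom.of_eff {G : MGraph V E} {D P : MDiv V E} (h : Eff (D - P)) : Dom G D P :=
  ⟨zeroF G, by rw [div_zeroF, add_zero]; exact h⟩

lemma Dom.refl {G : MGraph V E} (D : MDiv V E) : Dom G D D :=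
  Dom.of_eff (by rw [sub_self]; exact Eff.zero)

lemma Dom.of_div {G : MGraph V E} {D P : MDiv V E} (f : RatFun G) (h : D + f.div = P) :
    Dom G D P :=
  ⟨f, by
    have : D - P + f.div = 0 := by rw [← h]; abel
    rw [this]; exact Eff.zero⟩

lemma Dom.deg_le {G : MGraph V E} {D P : MDiv V E} (h : Dom G D P) : deg P ≤ deg D := by
  obtain ⟨f, hf⟩ := h
  have := deg_nonneg _ hf
  rw [deg_add, deg_sub, deg_div] at this
  linarith

/-- a vertex as a divisor -/
noncomputable def ptV (v : V) : MDiv V E := (Pi.single v 1, 0)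

open Classical in
/-- an interior point as a divisor -/
noncomputable def ptE (e : E) (t : I) : MDiv V E := (0, Pi.single e (Finsupp.single t 1))

lemma eff_ptV (v : V) : Eff (ptV v : MDiv V E) := by
  refine ⟨fun w => ?_, fun e t => le_rfl⟩
  simp only [ptV, Pi.single_apply]
  split_ifs <;> norm_num

lemma eff_ptE (e : E) (t : I) : Eff (ptE e t : MDiv V E) := by
  classical
  refine ⟨fun w => le_rfl, fun e' t' => ?_⟩
  simp only [ptE, Pi.single_apply]
  split_ifs
  · rw [Finsupp.single_apply]
    split_ifs <;> norm_num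
  · simp

lemma deg_ptV (v : V) : deg (ptV v : MDiv V E) = 1 := by
  rw [deg_def]
  simp [ptV]

lemma deg_ptE (e : E) (t : I) : deg (ptE e t : MDiv V E) = 1 := by
  classical
  rw [deg_def]
  simp only [ptE, Pi.zero_apply, Finset.sum_const_zero, zero_add]
  rw [Finset.sum_eq_single e]
  · rw [Pi.single_eq_same, tot_single]
  · intro b _ hb
    rw [Pi.single_eq_of_ne hb, tot_zero]
  · simp

/-- the points of the metric graph, as divisors -/
def IsPt (P : MDiv V E) : Prop := (∃ v, P = ptV v) ∨ ∃ e t, P = ptE e t

lemma IsPt.deg {P : MDiv V E} (h : IsPt P) : deg P = 1 := by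
  rcases h with ⟨v, rfl⟩ | ⟨e, t, rfl⟩
  · exact deg_ptV v
  · exact deg_ptE e t

lemma peel (A : MDiv V E) (hA : Eff A) (hd : 0 < deg A) :
    ∃ P, IsPt P ∧ Eff (A - P) := by
  classical
  by_cases h1 : ∃ v, 0 < A.1 v
  · obtain ⟨v, hv⟩ := h1
    refine ⟨ptV v, Or.inl ⟨v, rfl⟩, fun w => ?_, fun e t => ?_⟩
    · simp only [Prod.fst_sub, Pi.sub_apply, ptV, Pi.single_apply]
      split_ifs with h
      · subst h; linarith
      · simpa using hA.1 w
    · simpa [ptV] using hA.2 e t
  · by_cases h2 : ∃ e t, 0 < A.2 e t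
    · obtain ⟨e, t, ht⟩ := h2
      refine ⟨ptE e t, Or.inr ⟨e, t, rfl⟩, fun w => ?_, fun e' t' => ?_⟩
      · simpa [ptE] using hA.1 w
      · simp only [Prod.snd_sub, Pi.sub_apply, ptE, Finsupp.sub_apply]
        by_cases he : e' = e
        · subst he
          rw [Pi.single_eq_same, Finsupp.single_apply]
          split_ifs with h
          · subst h; linarith
          · simpa using hA.2 e' t'
        · rw [Pi.single_eq_of_ne he]
          simpa using hA.2 e' t'
    · exfalso
      push Not at h1 h2
      have h3 : deg A ≤ 0 := by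
        rw [deg_def]
        have a1 : ∑ v, A.1 v ≤ 0 := Finset.sum_nonpos fun v _ => h1 v
        have a2 : ∑ e, tot (A.2 e) ≤ 0 := Finset.sum_nonpos fun e _ =>
          Finset.sum_nonpos fun t _ => h2 e t
        linarith
      linarith

lemma eq_zero_of_deg (A : MDiv V E) (hA : Eff A) (hd : deg A = 0) : A = 0 := by
  classical
  rw [deg_def] at hd
  have a1 : 0 ≤ ∑ v, A.1 v := Finset.sum_nonneg fun v _ => hA.1 v
  have a2 : 0 ≤ ∑ e, tot (A.2 e) := Finset.sum_nonneg fun e _ => tot_nonneg _ (hA.2 e)
  have b1 : ∑ v, A.1 v = 0 := by linarith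
  have b2 : ∑ e, tot (A.2 e) = 0 := by linarith
  refine Prod.ext ?_ ?_
  · funext v
    exact (Finset.sum_eq_zero_iff_of_nonneg fun v _ => hA.1 v).1 b1 v (mem_univ v)
  · funext e
    have b3 := (Finset.sum_eq_zero_iff_of_nonneg fun e _ => tot_nonneg _ (hA.2 e)).1 b2 e
      (mem_univ e)
    ext t
    by_contra hne
    have ht : t ∈ (A.2 e).support := Finsupp.mem_support_iff.2 hne
    exact hne ((Finset.sum_eq_zero_iff_of_nonneg fun t _ => hA.2 e t).1 b3 t ht)

lemma mrank_one (G : MGraph V E) (D : MDiv V E) (h : ∀ P, IsPt P → Dom G D P) :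
    MRankGE G D 1 := by
  intro A hA hd
  obtain ⟨P, hP, hAP⟩ := peel A hA (by rw [hd]; norm_num)
  have h0 : A - P = 0 := eq_zero_of_deg _ hAP (by rw [deg_sub, hd, hP.deg]; norm_num)
  have h1 : A = P := sub_eq_zero.1 h0
  obtain ⟨f, hf⟩ := h P hP
  exact ⟨_, hf, f, by rw [h1]⟩

lemma mrank_two (G : MGraph V E) (D : MDiv V E)
    (h : ∀ P Q, IsPt P → IsPt Q → Dom G D (P + Q)) : MRankGE G D 2 := by
  intro A hA hd
  obtain ⟨P, hP, hAP⟩ := peel A hA (by rw [hd]; norm_num)
  have hd' : deg (A - P) = 1 := by rw [deg_sub, hd, hP.deg]; norm_num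
  obtain ⟨Q, hQ, hAQ⟩ := peel (A - P) hAP (by rw [hd']; norm_num)
  have h0 : A - P - Q = 0 := eq_zero_of_deg _ hAQ (by rw [deg_sub, hd', hQ.deg]; norm_num)
  have h1 : A = P + Q := by
    have := sub_eq_zero.1 h0
    rw [← this]; abel
  obtain ⟨f, hf⟩ := h P Q hP hQ
  exact ⟨_, hf, f, by rw [h1]⟩

lemma dom_of_mrank (G : MGraph V E) (D P : MDiv V E) (h : MRankGE G D 1) (hP : IsPt P)
    (hE : Eff P) : Dom G D P := by
  obtain ⟨D', hD', f, hf⟩ := h P hE (by rw [hP.deg]; norm_num)
  exact ⟨f, by rw [← hf]; exact hD'⟩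

end Metric2

end Pool.Agent.V11142.WG
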