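import Pool.Agent.V11142.WG.CoverK
import Pool.Agent.H997R3.Gon.Net

/-!
# Divisors on the finite wedge
-/

set_option autoImplicit false

namespace Pool.Agent.V11142.WG

open Pool.Agent.H997R3.Gon Finset

section General

variable {V E : Type} [Fintype V] [DecidableEq V] [Fintype E]

/-- `D - P` is equivalent to an effective divisor on the finite graph -/
def FDom (G : MGraph V E) (D P : V → ℤ) : Prop := ∃ f : V → ℤ, ∀ w, 0 ≤ D w - P w - G.lap f w

omit [Fintype V] in
lemma lap_add (G : MGraph V E) (f g : V → ℤ) (v : V) :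
    G.lap (fun w => f w + g w) v = G.lap f v + G.lap g v := by
  unfold MGraph.lap
  rw [← Finset.sum_add_distrib]
  refine Finset.sum_congr rfl fun e _ => ?_
  split_ifs <;> ring

omit [Fintype V] in
lemma lap_sub (G : MGraph V E) (f g : V → ℤ) (v : V) :
    G.lap (fun w => f w - g w) v = G.lap f v - G.lap g v := by
  unfold MGraph.lap
  rw [← Finset.sum_sub_distrib]
  refine Finset.sum_congr rfl fun e _ => ?_
  split_ifs <;> ring

omit [Fintype V] in
lemma lap_zero (G : MGraph V E) (v : V) : G.lap (fun _ => 0) v = 0 := by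
  unfold MGraph.lap
  simp

lemma sum_lap (G : MGraph V E) (f : V → ℤ) : ∑ v, G.lap f v = 0 := by
  have := MGraph.sum_mul_lap G (fun _ => 1) f
  simpa using this

omit [Fintype V] in
lemma FDom.add {G : MGraph V E} {D P D' P' : V → ℤ} (h : FDom G D P) (h' : FDom G D' P') :
    FDom G (D + D') (P + P') := by
  obtain ⟨f, hf⟩ := h
  obtain ⟨g, hg⟩ := h'
  refine ⟨fun w => f w + g w, fun w => ?_⟩
  rw [lap_add]
  have := hf w
  have := hg w
  simp only [Pi.add_apply]
  linarith

omit [Fintype V] in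
lemma FDom.trans {G : MGraph V E} {D P Q : V → ℤ} (h : FDom G D P) (h' : FDom G P Q) :
    FDom G D Q := by
  obtain ⟨f, hf⟩ := h
  obtain ⟨g, hg⟩ := h'
  refine ⟨fun w => f w + g w, fun w => ?_⟩
  rw [lap_add]
  have := hf w
  have := hg w
  linarith

omit [Fintype V] in
lemma FDom.of_le {G : MGraph V E} {D P : V → ℤ} (h : ∀ w, P w ≤ D w) : FDom G D P :=
  ⟨fun _ => 0, fun w => by rw [lap_zero]; have := h w; linarith⟩

omit [Fintype V] in
lemma FDom.smul {G : MGraph V E} {D P : V → ℤ} (h : FDom G D P) (n : ℕ) :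
    FDom G (n • D) (n • P) := by
  induction n with
  | zero => exact FDom.of_le (fun w => by simp)
  | succ n ih => rw [succ_nsmul, succ_nsmul]; exact ih.add h

lemma FDom.toDom {G : MGraph V E} {D P : V → ℤ} (h : FDom G D P) :
    Dom G ((D, 0) : MDiv V E) (P, 0) := by
  obtain ⟨f, hf⟩ := h
  refine ⟨mkF G (fun v => (f v : ℝ)) (fun e => f (G.tgt e) - f (G.src e)) (fun _ => 0)
    (fun e => by rw [mom_zero]; push_cast; ring), fun v => ?_, fun e t => ?_⟩
  · simp only [Prod.fst_add, Prod.fst_sub, Pi.add_apply, Pi.sub_apply]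
    rw [div_fst]
    have h1 := hf v
    have h2 : G.lap f v = - ∑ e, ((if G.src e = v then f (G.tgt e) - f (G.src e) else 0) -
        (if G.tgt e = v then f (G.tgt e) - f (G.src e) + tot 0 else 0)) := by
      unfold MGraph.lap
      rw [← Finset.sum_neg_distrib]
      refine Finset.sum_congr rfl fun e _ => ?_
      rw [tot_zero]
      by_cases h1 : G.src e = v
      · have h2 : G.tgt e ≠ v := fun h => G.ne e (h1.trans h.symm)
        rw [if_pos h1, if_neg h2, if_pos h1, if_neg h2, h1]
        ring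
      · by_cases h2 : G.tgt e = v
        · rw [if_neg h1, if_pos h2, if_neg h1, if_pos h2, h2]
          ring
        · rw [if_neg h1, if_neg h2, if_neg h1, if_neg h2]
          ring
    rw [h2] at h1
    simp only [mkF]
    linarith
  · show (0 : ℤ) ≤ 0 - 0 + 0
    norm_num

lemma peel_fin (A : V → ℤ) (hA : ∀ v, 0 ≤ A v) (hd : 0 < ∑ v, A v) :
    ∃ v, ∀ w, (Pi.single v 1 : V → ℤ) w ≤ A w := by
  by_contra hcon
  push Not at hcon
  have : ∑ v, A v ≤ 0 := by
    refine Finset.sum_nonpos fun v _ => ?_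
    obtain ⟨w, hw⟩ := hcon v
    by_cases h : w = v
    · subst h
      rw [Pi.single_eq_same] at hw
      linarith
    · rw [Pi.single_eq_of_ne h] at hw
      have := hA w
      linarith
  linarith

lemma frank_one (G : MGraph V E) (D : V → ℤ) (h : ∀ v, FDom G D (Pi.single v 1)) :
    RankGE G D 1 := by
  intro A hA hd
  obtain ⟨v, hv⟩ := peel_fin A hA (by rw [hd]; norm_num)
  have h1 : ∀ w, A w = (Pi.single v 1 : V → ℤ) w := by
    have h2 : ∑ w, (A w - (Pi.single v 1 : V → ℤ) w) = 0 := by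
      rw [Finset.sum_sub_distrib, hd, Finset.sum_pi_single']
      simp
    rw [Finset.sum_eq_zero_iff_of_nonneg (fun w _ => by have := hv w; linarith)] at h2
    intro w
    have := h2 w (mem_univ w)
    linarith
  obtain ⟨f, hf⟩ := h v
  refine ⟨fun w => D w - A w - G.lap f w, fun w => ?_, f, fun w => rfl⟩
  show 0 ≤ D w - A w - G.lap f w
  rw [h1 w]
  exact hf w

lemma frank_two (G : MGraph V E) (D : V → ℤ)
    (h : ∀ v w, FDom G D (Pi.single v 1 + Pi.single w 1)) : RankGE G D 2 := by
  intro A hA hd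
  obtain ⟨v, hv⟩ := peel_fin A hA (by rw [hd]; norm_num)
  have hd1 : ∑ w, (A w - (Pi.single v 1 : V → ℤ) w) = 1 := by
    rw [Finset.sum_sub_distrib, hd, Finset.sum_pi_single']
    simp
  obtain ⟨u, hu⟩ := peel_fin (fun w => A w - (Pi.single v 1 : V → ℤ) w)
    (fun w => by have := hv w; linarith) (by rw [hd1]; norm_num)
  have h1 : ∀ w, A w = (Pi.single v 1 + Pi.single u 1 : V → ℤ) w := by
    have h2 : ∑ w, (A w - (Pi.single v 1 : V → ℤ) w - (Pi.single u 1 : V → ℤ) w) = 0 := by
      rw [Finset.sum_sub_distrib, hd1, Finset.sum_pi_single']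
      simp
    rw [Finset.sum_eq_zero_iff_of_nonneg (fun w _ => by
      have := hu w
      linarith)] at h2
    intro w
    have := h2 w (mem_univ w)
    rw [Pi.add_apply]
    linarith
  obtain ⟨f, hf⟩ := h v u
  refine ⟨fun w => D w - A w - G.lap f w, fun w => ?_, f, fun w => rfl⟩
  show 0 ≤ D w - A w - G.lap f w
  rw [h1 w]
  exact hf w

lemma fdom_of_rank (G : MGraph V E) (D A : V → ℤ) (r : ℕ) (h : RankGE G D r)
    (hA : ∀ v, 0 ≤ A v) (hd : ∑ v, A v = (r : ℤ)) : FDom G D A := by
  obtain ⟨D', hD', f, hf⟩ := h A hA hd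
  exact ⟨f, fun w => by rw [← hf w]; exact hD' w⟩

omit [Fintype V] in
/-- a chip at a neighbour -/
lemma fdom_adj (G : MGraph V E) (a b : V)
    (h : ∃ e, (G.src e = a ∧ G.tgt e = b) ∨ (G.src e = b ∧ G.tgt e = a)) :
    ∃ N : ℕ, FDom G (N • Pi.single a 1) (Pi.single b 1) := by
  classical
  obtain ⟨e, he⟩ := h
  have hab : a ≠ b := by
    rintro rfl
    rcases he with h | h <;> exact G.ne e (h.1.trans h.2.symm)
  set f : V → ℤ := Pi.single a 1 with hf
  have hfa : f a = 1 := by rw [hf, Pi.single_eq_same]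
  have hfn : ∀ w, w ≠ a → f w = 0 := fun w hw => by rw [hf, Pi.single_eq_of_ne hw]
  have hf0 : ∀ w, 0 ≤ f w := by
    intro w
    by_cases h : w = a
    · rw [h, hfa]; norm_num
    · rw [hfn w h]
  have h1 : ∀ w, w ≠ a → G.lap f w ≤ 0 := by
    intro w hw
    refine Finset.sum_nonpos fun e' _ => ?_
    have := hf0 (G.tgt e')
    have := hf0 (G.src e')
    rw [hfn w hw]
    split_ifs <;> linarith
  have h2 : G.lap f b ≤ -1 := by
    unfold MGraph.lap
    rw [← Finset.add_sum_erase univ _ (mem_univ e)]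
    have h3 : ∑ e' ∈ univ.erase e, ((if G.src e' = b then f b - f (G.tgt e') else 0) +
      (if G.tgt e' = b then f b - f (G.src e') else 0)) ≤ 0 := by
      refine Finset.sum_nonpos fun e' _ => ?_
      have := hf0 (G.tgt e')
      have := hf0 (G.src e')
      rw [hfn b (Ne.symm hab)]
      split_ifs <;> linarith
    have h4 : (if G.src e = b then f b - f (G.tgt e) else 0) +
      (if G.tgt e = b then f b - f (G.src e) else 0) = -1 := by
      rcases he with ⟨h5, h6⟩ | ⟨h5, h6⟩
      · rw [h5, h6, if_neg hab, if_pos rfl, hfa, hfn b (Ne.symm hab)]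
        ring
      · rw [h5, h6, if_neg hab, if_pos rfl, hfa, hfn b (Ne.symm hab)]
        ring
    linarith
  refine ⟨(G.lap f a).toNat, f, fun w => ?_⟩
  by_cases hw : w = a
  · subst hw
    have := Int.self_le_toNat (G.lap f w)
    have q1 : ((G.lap f w).toNat • f) w = (G.lap f w).toNat := by
      rw [Pi.smul_apply, hfa, nsmul_eq_mul, mul_one]
    have q2 : (Pi.single b 1 : V → ℤ) w = 0 := Pi.single_eq_of_ne hab 1
    rw [q1, q2]
    linarith
  · by_cases hb : w = b
    · subst hb
      have q1 : ((G.lap f a).toNat • f) w = 0 := by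
        rw [Pi.smul_apply, hfn w hw, nsmul_eq_mul, mul_zero]
      rw [q1, Pi.single_eq_same]
      linarith
    · have q1 : ((G.lap f a).toNat • f) w = 0 := by
        rw [Pi.smul_apply, hfn w hw, nsmul_eq_mul, mul_zero]
      rw [q1, Pi.single_eq_of_ne hb]
      have := h1 w hw
      linarith

omit [Fintype V] in
lemma fdom_reach (G : MGraph V E) (hG : G.Connected) (a b : V) :
    ∃ N : ℕ, FDom G (N • Pi.single a 1) (Pi.single b 1) := by
  obtain ⟨w⟩ := hG.preconnected a b
  induction w with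
  | nil => exact ⟨1, FDom.of_le (fun w => by simp)⟩
  | @cons u v w hadj _ ih =>
    obtain ⟨N, hN⟩ := ih
    rw [SimpleGraph.fromRel_adj] at hadj
    obtain ⟨_, h⟩ := hadj
    have h' : ∃ e, (G.src e = u ∧ G.tgt e = v) ∨ (G.src e = v ∧ G.tgt e = u) := by
      rcases h with ⟨e, h1, h2⟩ | ⟨e, h1, h2⟩
      · exact ⟨e, Or.inl ⟨h1, h2⟩⟩
      · exact ⟨e, Or.inr ⟨h1, h2⟩⟩
    obtain ⟨N', hN'⟩ := fdom_adj G u v h'
    refine ⟨N * N', ?_⟩
    have := (hN'.smul N).trans hN
    rwa [← mul_smul] at this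

/-- a large multiple of a vertex dominates any two vertices -/
lemma exists_big (G : MGraph V E) (hG : G.Connected) (x : V) :
    ∃ N0 : ℕ, ∀ M, N0 ≤ M → ∀ v w,
      FDom G (M • Pi.single x 1) (Pi.single v 1 + Pi.single w 1) := by
  choose N hN using fdom_reach G hG x
  refine ⟨∑ v, N v + ∑ v, N v, fun M hM v w => ?_⟩
  have hv : N v ≤ ∑ v, N v := Finset.single_le_sum (fun _ _ => Nat.zero_le _) (mem_univ v)
  have hw : N w ≤ ∑ v, N v := Finset.single_le_sum (fun _ _ => Nat.zero_le _) (mem_univ w)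
  refine FDom.trans ?_ ((hN v).add (hN w))
  refine FDom.of_le fun u => ?_
  simp only [Pi.add_apply, Pi.smul_apply]
  by_cases hu : u = x
  · subst hu
    simp only [Pi.single_eq_same, nsmul_eq_mul, mul_one]
    have : N v + N w ≤ M := by omega
    exact_mod_cast this
  · simp only [Pi.single_eq_of_ne hu, smul_zero, add_zero, le_refl]

end General

section Wedge

variable {V E : Type} [Fintype V] [DecidableEq V] [Fintype E]
variable (G : MGraph V E) (x : V) (M : ℕ)

omit [Fintype V] in
lemma lap_wedge_inl (f : V ⊕ Fin M → ℤ) (u : V) :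
    (wedge G x M).lap f (Sum.inl u) = G.lap (fun w => f (Sum.inl w)) u +
      (if u = x then ∑ j ∈ univ.erase (0 : Fin (M + 1)), (f (Sum.inl x) - f (kap x j))
        else 0) := by
  unfold MGraph.lap
  rw [Fintype.sum_sum_type]
  congr 1
  · refine Finset.sum_congr rfl fun e _ => ?_
    simp [wedge]
  · by_cases hu : u = x
    · subst hu
      rw [if_pos rfl, ← star_sum (0 : Fin (M + 1)) (fun j => f (Sum.inl u) - f (kap u j))]
      refine Finset.sum_congr rfl fun p _ => ?_
      have c1 : (wedge G u M).src (Sum.inr p) = Sum.inl u ↔ p.1.1 = 0 :=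
        (kap_injective (M := M) u).eq_iff (b := 0)
      have c2 : (wedge G u M).tgt (Sum.inr p) = Sum.inl u ↔ p.1.2 = 0 :=
        (kap_injective (M := M) u).eq_iff (b := 0)
      simp only [c1, c2]
      rfl
    · rw [if_neg hu]
      refine Finset.sum_eq_zero fun p _ => ?_
      have hk : ∀ i : Fin (M + 1), kap x i ≠ Sum.inl u := by
        intro i
        refine Fin.cases ?_ (fun k => ?_) i
        · intro h
          exact hu (Sum.inl_injective h).symm
        · intro h
          cases h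
      have c1 : (wedge G x M).src (Sum.inr p) ≠ Sum.inl u := hk _
      have c2 : (wedge G x M).tgt (Sum.inr p) ≠ Sum.inl u := hk _
      rw [if_neg c1, if_neg c2, add_zero]

omit [Fintype V] in
lemma lap_wedge_inr (f : V ⊕ Fin M → ℤ) (k : Fin M) :
    (wedge G x M).lap f (Sum.inr k) =
      ∑ j ∈ univ.erase (k.succ : Fin (M + 1)), (f (Sum.inr k) - f (kap x j)) := by
  unfold MGraph.lap
  rw [Fintype.sum_sum_type]
  have z : ∑ e : E, ((if (wedge G x M).src (Sum.inl e) = Sum.inr k then
      f (Sum.inr k) - f ((wedge G x M).tgt (Sum.inl e)) else 0) +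
      (if (wedge G x M).tgt (Sum.inl e) = Sum.inr k then
      f (Sum.inr k) - f ((wedge G x M).src (Sum.inl e)) else 0)) = 0 := by
    refine Finset.sum_eq_zero fun e _ => ?_
    simp [wedge]
  rw [z, zero_add, ← star_sum k.succ (fun j => f (Sum.inr k) - f (kap x j))]
  refine Finset.sum_congr rfl fun p _ => ?_
  have c1 : (wedge G x M).src (Sum.inr p) = Sum.inr k ↔ p.1.1 = k.succ :=
    (kap_injective (M := M) x).eq_iff (b := k.succ)
  have c2 : (wedge G x M).tgt (Sum.inr p) = Sum.inr k ↔ p.1.2 = k.succ :=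
    (kap_injective (M := M) x).eq_iff (b := k.succ)
  simp only [c1, c2]
  rfl

omit [Fintype V] in
lemma ext_fdom {D P : V → ℤ} (h : FDom G D P) :
    FDom (wedge G x M) (Sum.elim D (fun _ => 0)) (Sum.elim P (fun _ => 0)) := by
  obtain ⟨f, hf⟩ := h
  have hk : ∀ i : Fin (M + 1), (Sum.elim f (fun _ => f x) : V ⊕ Fin M → ℤ) (kap x i) = f x :=
    fun i => Fin.cases rfl (fun _ => rfl) i
  refine ⟨Sum.elim f (fun _ => f x), ?_⟩
  rintro (u | k)
  · rw [lap_wedge_inl]
    simp only [hk, Sum.elim_inl, sub_self, Finset.sum_const_zero, ite_self, add_zero]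
    exact hf u
  · rw [lap_wedge_inr]
    simp only [hk, Sum.elim_inr, sub_self, Finset.sum_const_zero]
    norm_num

omit [Fintype V] [Fintype E] in
lemma single_inl (v : V) (c : ℤ) : (Pi.single (Sum.inl v) c : V ⊕ Fin M → ℤ) =
    Sum.elim (Pi.single v c) (fun _ => 0) := by
  funext w
  rcases w with w | k
  · by_cases h : w = v
    · subst h; simp
    · rw [Pi.single_eq_of_ne (fun h' => h (Sum.inl_injective h'))]
      simp [Pi.single_eq_of_ne h]
  · rw [Pi.single_eq_of_ne (by simp)]
    rfl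

omit [Fintype V] in
/-- `M x` dominates any vertex of the complete graph -/
lemma fdom_inr (k : Fin M) : FDom (wedge G x M) (M • Pi.single (Sum.inl x) 1)
    (Pi.single (Sum.inr k) 1) := by
  refine ⟨Sum.elim (fun _ => 1) (fun _ => 0), ?_⟩
  rintro (u | l)
  · rw [lap_wedge_inl]
    have h1 : G.lap (fun w => (Sum.elim (fun _ => 1) (fun _ => 0) : V ⊕ Fin M → ℤ) (Sum.inl w)) u
        = 0 := by
      unfold MGraph.lap
      simp
    have h2 : ∑ j ∈ univ.erase (0 : Fin (M + 1)),
        ((Sum.elim (fun _ => 1) (fun _ => 0) : V ⊕ Fin M → ℤ) (Sum.inl x) -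
        (Sum.elim (fun _ => 1) (fun _ => 0) : V ⊕ Fin M → ℤ) (kap x j)) = M := by
      have : ∀ j ∈ univ.erase (0 : Fin (M + 1)),
          ((Sum.elim (fun _ => 1) (fun _ => 0) : V ⊕ Fin M → ℤ) (Sum.inl x) -
        (Sum.elim (fun _ => 1) (fun _ => 0) : V ⊕ Fin M → ℤ) (kap x j)) = 1 := by
        intro j hj
        have hj0 := Finset.ne_of_mem_erase hj
        obtain ⟨i, rfl⟩ := Fin.exists_succ_eq.2 hj0
        rw [kap_succ]
        simp
      rw [Finset.sum_congr rfl this]
      simp
    rw [h1, h2]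
    by_cases hu : u = x
    · subst hu
      simp
    · have hu' : (Sum.inl u : V ⊕ Fin M) ≠ Sum.inl x := fun h => hu (Sum.inl_injective h)
      simp [hu, hu']
  · rw [lap_wedge_inr]
    have h3 : (1 : ℤ) ≤ - ∑ j ∈ univ.erase (l.succ : Fin (M + 1)),
        ((Sum.elim (fun _ => 1) (fun _ => 0) : V ⊕ Fin M → ℤ) (Sum.inr l) -
        (Sum.elim (fun _ => 1) (fun _ => 0) : V ⊕ Fin M → ℤ) (kap x j)) := by
      rw [← Finset.sum_neg_distrib]
      have hpos : ∀ j, 0 ≤ (Sum.elim (fun _ => 1) (fun _ => 0) : V ⊕ Fin M → ℤ) (kap x j) := by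
        intro j
        refine Fin.cases ?_ (fun i => ?_) j
        · rw [kap_zero]; simp
        · rw [kap_succ]; simp
      have h4 := Finset.single_le_sum (s := univ.erase (l.succ : Fin (M + 1)))
        (f := fun j => -((Sum.elim (fun _ => 1) (fun _ => 0) : V ⊕ Fin M → ℤ) (Sum.inr l) -
        (Sum.elim (fun _ => 1) (fun _ => 0) : V ⊕ Fin M → ℤ) (kap x j)))
        (fun j _ => by have := hpos j; simp only [Sum.elim_inr]; linarith)
        (Finset.mem_erase.2 ⟨(Fin.succ_ne_zero l).symm, mem_univ (0 : Fin (M + 1))⟩)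
      simp only [kap_zero, Sum.elim_inr, Sum.elim_inl] at h4
      simpa using h4
    have h5 : (Pi.single (Sum.inr k) 1 : V ⊕ Fin M → ℤ) (Sum.inr l) ≤ 1 := by
      rw [Pi.single_apply]
      split_ifs <;> norm_num
    have h6 : (M • (Pi.single (Sum.inl x) 1 : V ⊕ Fin M → ℤ)) (Sum.inr l) = 0 := by
      simp
    rw [h6]
    linarith

end Wedge

end Pool.Agent.V11142.WG
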