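import Pool.Agent.V11142.WG.Defs

/-!
# A graph with a complete graph attached at a vertex: the lower bound
-/

set_option autoImplicit false

namespace Pool.Agent.V11142.WG

open Pool.Agent.H997R3.Gon Finset

/-- edges of the complete graph on `M + 1` vertices -/
abbrev KE (M : ℕ) : Type := {p : Fin (M + 1) × Fin (M + 1) // p.1 < p.2}

/-- the vertices of the complete graph inside the wedge; vertex `0` is the vertex `x` -/
def kap {V : Type} {M : ℕ} (x : V) : Fin (M + 1) → V ⊕ Fin M :=
  Fin.cases (Sum.inl x) (fun j => Sum.inr j)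

lemma kap_zero {V : Type} {M : ℕ} (x : V) : kap (M := M) x 0 = Sum.inl x := rfl

lemma kap_succ {V : Type} {M : ℕ} (x : V) (j : Fin M) : kap x j.succ = Sum.inr j := rfl

lemma kap_injective {V : Type} {M : ℕ} (x : V) : Function.Injective (kap (M := M) x) := by
  intro i j h
  refine Fin.cases (fun h => ?_) (fun i h => ?_) i h <;>
    refine Fin.cases (fun h => ?_) (fun j h => ?_) j h
  · rfl
  · rw [kap_zero, kap_succ] at h; cases h
  · rw [kap_zero, kap_succ] at h; cases h
  · rw [kap_succ, kap_succ] at h; cases h; rfl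

/-- `G` with a complete graph on `M + 1` vertices attached at the vertex `x` -/
def wedge {V E : Type} (G : MGraph V E) (x : V) (M : ℕ) : MGraph (V ⊕ Fin M) (E ⊕ KE M) where
  src := Sum.elim (fun e => Sum.inl (G.src e)) (fun p => kap x p.1.1)
  tgt := Sum.elim (fun e => Sum.inl (G.tgt e)) (fun p => kap x p.1.2)
  ne := by
    rintro (e | p)
    · simp only [Sum.elim_inl]
      intro h
      exact G.ne e (Sum.inl_injective h)
    · simp only [Sum.elim_inr]
      intro h
      exact (ne_of_lt p.2) (kap_injective x h)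

/-! ### Inequalities on one edge -/

lemma sum_ge (c d : I →₀ ℤ) (hd : ∀ t, 0 ≤ d t) (h : ∀ t, 0 ≤ d t + c t) (S : Finset I) :
    - tot d ≤ ∑ t ∈ S, c t := by
  classical
  have h1 : ∑ t ∈ S, d t ≤ ∑ t ∈ S ∪ d.support, d t :=
    Finset.sum_le_sum_of_subset_of_nonneg subset_union_left (fun t _ _ => hd t)
  have h2 : ∑ t ∈ S ∪ d.support, d t = tot d := by
    unfold tot
    rw [Finsupp.sum_of_support_subset d subset_union_right _ (fun _ _ => rfl)]
  have h3 : ∑ t ∈ S, -(d t) ≤ ∑ t ∈ S, c t :=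
    Finset.sum_le_sum fun t _ => by have := h t; linarith
  rw [Finset.sum_neg_distrib] at h3
  linarith

lemma drop_src (c : I →₀ ℤ) (m : ℤ) (h : (m : ℝ) + mom c < 0) :
    ∃ S : Finset I, m + ∑ t ∈ S, c t ≤ -1 := by
  classical
  refine ⟨c.support.filter (fun t => c t < 0), ?_⟩
  rw [Finset.sum_filter]
  have h1 : ((∑ t ∈ c.support, (if c t < 0 then c t else 0) : ℤ) : ℝ) ≤ mom c := by
    unfold mom Finsupp.sum
    push_cast
    refine Finset.sum_le_sum fun t _ => ?_
    have h0 := t.2.1
    have h1 := t.2.2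
    split_ifs with hc
    · have : (c t : ℝ) < 0 := by exact_mod_cast hc
      nlinarith
    · have : (0 : ℝ) ≤ (c t : ℝ) := by exact_mod_cast not_lt.1 hc
      nlinarith
  have h2 : ((m + ∑ t ∈ c.support, (if c t < 0 then c t else 0) : ℤ) : ℝ) < 0 := by
    push_cast at h1 ⊢
    linarith
  have h3 : m + ∑ t ∈ c.support, (if c t < 0 then c t else 0) < 0 := by exact_mod_cast h2
  linarith

lemma drop_tgt (c : I →₀ ℤ) (m : ℤ) (h : 0 < (m : ℝ) + mom c) :
    ∃ S : Finset I, -(m + tot c) + ∑ t ∈ S, c t ≤ -1 := by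
  classical
  refine ⟨c.support.filter (fun t => c t < 0), ?_⟩
  rw [Finset.sum_filter]
  have h1 : mom c ≤ ((tot c - ∑ t ∈ c.support, (if c t < 0 then c t else 0) : ℤ) : ℝ) := by
    unfold mom tot Finsupp.sum
    rw [← Finset.sum_sub_distrib]
    push_cast
    refine Finset.sum_le_sum fun t _ => ?_
    have h0 := t.2.1
    have h1 := t.2.2
    split_ifs with hc
    · have : (c t : ℝ) < 0 := by exact_mod_cast hc
      nlinarith
    · have : (0 : ℝ) ≤ (c t : ℝ) := by exact_mod_cast not_lt.1 hc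
      nlinarith
  have h2 : (0 : ℝ) < ((m + (tot c - ∑ t ∈ c.support, (if c t < 0 then c t else 0)) : ℤ) : ℝ) := by
    push_cast at h1 ⊢
    linarith
  have h3 : 0 < m + (tot c - ∑ t ∈ c.support, (if c t < 0 then c t else 0)) := by
    exact_mod_cast h2
  linarith

lemma mom_nonneg (d : I →₀ ℤ) (hd : ∀ t, 0 ≤ d t) : 0 ≤ mom d := by
  refine Finset.sum_nonneg fun t _ => ?_
  have h0 : (0 : ℝ) ≤ d t := by exact_mod_cast hd t
  have h1 := t.2.2
  show 0 ≤ (d t : ℝ) * (1 - (t : ℝ))
  nlinarith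

lemma mom_le_tot (d : I →₀ ℤ) (hd : ∀ t, 0 ≤ d t) : mom d ≤ (tot d : ℝ) := by
  unfold mom tot Finsupp.sum
  push_cast
  refine Finset.sum_le_sum fun t _ => ?_
  have h0 : (0 : ℝ) ≤ d t := by exact_mod_cast hd t
  have h1 := t.2.1
  nlinarith

lemma mom_pos (d : I →₀ ℤ) (hd : ∀ t, 0 ≤ d t) (hne : d ≠ 0) : 0 < mom d := by
  refine Finset.sum_pos (fun t ht => ?_) (Finsupp.support_nonempty_iff.2 hne)
  have h0 : (0 : ℝ) < d t := by
    exact_mod_cast lt_of_le_of_ne (hd t) (Ne.symm (Finsupp.mem_support_iff.1 ht))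
  have h1 := t.2.2
  show 0 < (d t : ℝ) * (1 - (t : ℝ))
  nlinarith

lemma mom_lt_tot (d : I →₀ ℤ) (hd : ∀ t, 0 ≤ d t) (hne : d ≠ 0) : mom d < (tot d : ℝ) := by
  unfold mom tot Finsupp.sum
  push_cast
  refine Finset.sum_lt_sum_of_nonempty (Finsupp.support_nonempty_iff.2 hne) (fun t ht => ?_)
  have h0 : (0 : ℝ) < d t := by
    exact_mod_cast lt_of_le_of_ne (hd t) (Ne.symm (Finsupp.mem_support_iff.1 ht))
  have h1 := t.2.1
  nlinarith

lemma rise_src (c d : I →₀ ℤ) (m : ℤ) (hd : ∀ t, 0 ≤ d t) (h : ∀ t, 0 ≤ d t + c t)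
    (h0 : (m : ℝ) + mom c = 0) (hm : 1 ≤ m) : 2 ≤ tot d := by
  have h1 : 0 ≤ mom (d + c) := mom_nonneg _ (fun t => by rw [Finsupp.add_apply]; exact h t)
  rw [mom_add] at h1
  have hm' : (1 : ℝ) ≤ m := by exact_mod_cast hm
  have hne : d ≠ 0 := by
    rintro rfl
    rw [mom_zero] at h1
    linarith
  have h2 := mom_lt_tot d hd hne
  have h3 : (1 : ℝ) < (tot d : ℝ) := by linarith
  have h4 : 1 < tot d := by exact_mod_cast h3
  linarith

lemma rise_tgt (c d : I →₀ ℤ) (m : ℤ) (hd : ∀ t, 0 ≤ d t) (h : ∀ t, 0 ≤ d t + c t)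
    (h0 : (m : ℝ) + mom c = 0) (hm : 1 ≤ -(m + tot c)) : 2 ≤ tot d := by
  have h1 : mom (d + c) ≤ (tot (d + c) : ℝ) :=
    mom_le_tot _ (fun t => by rw [Finsupp.add_apply]; exact h t)
  rw [mom_add, tot_add] at h1
  push_cast at h1
  have hm' : (1 : ℝ) ≤ -(m + tot c) := by exact_mod_cast hm
  have hne : d ≠ 0 := by
    rintro rfl
    rw [mom_zero, tot_zero] at h1
    push_cast at h1
    linarith
  have h2 := mom_pos d hd hne
  have h3 : (1 : ℝ) < (tot d : ℝ) := by linarith
  have h4 : 1 < tot d := by exact_mod_cast h3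
  linarith

/-! ### The cut argument -/

lemma cross_count (M : ℕ) (A : Finset (Fin (M + 1))) (i j : Fin (M + 1)) (hi : i ∉ A)
    (hj : j ∈ A) :
    (M : ℤ) ≤ ∑ p : KE M, (if (p.1.1 ∈ A ∧ p.1.2 ∉ A) ∨ (p.1.1 ∉ A ∧ p.1.2 ∈ A) then (1 : ℤ)
      else 0) := by
  classical
  have h1 : (A ×ˢ Aᶜ).card ≤ (univ.filter (fun p : KE M =>
      (p.1.1 ∈ A ∧ p.1.2 ∉ A) ∨ (p.1.1 ∉ A ∧ p.1.2 ∈ A))).card := by
    refine Finset.card_le_card_of_surjOn
      (fun p : KE M => if p.1.1 ∈ A then (p.1.1, p.1.2) else (p.1.2, p.1.1)) ?_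
    rintro ⟨u, w⟩ huw
    simp only [coe_product, Set.mem_prod, mem_coe, mem_compl] at huw
    have hne : u ≠ w := by
      rintro rfl
      exact huw.2 huw.1
    rcases lt_or_gt_of_ne hne with h | h
    · refine ⟨⟨(u, w), h⟩, ?_, ?_⟩
      · simp [huw]
      · simp [huw]
    · refine ⟨⟨(w, u), h⟩, ?_, ?_⟩
      · simp [huw]
      · simp [huw]
  rw [Finset.sum_boole]
  rw [card_product, card_compl, Fintype.card_fin] at h1
  have h2 : 1 ≤ A.card := Finset.card_pos.2 ⟨j, hj⟩
  have h3 : A.card < M + 1 := by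
    have := Finset.card_lt_univ_of_notMem hi
    rwa [Fintype.card_fin] at this
  obtain ⟨b, hb⟩ : ∃ b, M + 1 = A.card + b := ⟨M + 1 - A.card, by omega⟩
  have hb' : M + 1 - A.card = b := by omega
  rw [hb'] at h1
  have hb1 : 1 ≤ b := by omega
  have h4 : A.card + b ≤ A.card * b + 1 := by nlinarith
  have h5 : M ≤ (univ.filter (fun p : KE M =>
      (p.1.1 ∈ A ∧ p.1.2 ∉ A) ∨ (p.1.1 ∉ A ∧ p.1.2 ∈ A))).card := by omega
  exact_mod_cast h5

variable {V E : Type} [Fintype V] [DecidableEq V] [Fintype E]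

lemma sum_chi (G : MGraph V E) (f : RatFun G) (χ : V → ℤ) :
    ∑ v, χ v * f.div.1 v = ∑ e, (χ (G.src e) * f.slope e -
      χ (G.tgt e) * (f.slope e + tot (f.kink e))) := by
  simp only [div_fst, Finset.mul_sum]
  rw [Finset.sum_comm]
  refine Finset.sum_congr rfl fun e _ => ?_
  simp only [mul_sub, mul_ite, mul_zero]
  rw [Finset.sum_sub_distrib, Finset.sum_ite_eq, Finset.sum_ite_eq]
  simp

lemma const_on_K (G : MGraph V E) (x : V) (M : ℕ) (D : MDiv (V ⊕ Fin M) (E ⊕ KE M))
    (hD : Eff D) (f : RatFun (wedge G x M)) (hf : Eff (D + f.div)) (hdeg : deg D < M)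
    (i j : Fin (M + 1)) : f.val (kap x i) = f.val (kap x j) := by
  classical
  by_contra hne
  wlog hlt : f.val (kap x i) < f.val (kap x j) generalizing i j with H
  · exact H j i (Ne.symm hne) (lt_of_le_of_ne (not_lt.1 hlt) (Ne.symm hne))
  set A : Finset (Fin (M + 1)) :=
    univ.filter (fun u => f.val (kap x i) < f.val (kap x u)) with hA
  have hi : i ∉ A := by simp [hA]
  have hj : j ∈ A := by simp [hA, hlt]
  set χ : V ⊕ Fin M → ℤ := Sum.elim (fun _ => if (0 : Fin (M + 1)) ∈ A then 1 else 0)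
    (fun k => if k.succ ∈ A then 1 else 0) with hχdef
  have hχ : ∀ u, χ (kap x u) = if u ∈ A then 1 else 0 := by
    intro u
    refine Fin.cases ?_ (fun k => ?_) u
    · rw [kap_zero]; rfl
    · rw [kap_succ]; rfl
  have hχ01 : ∀ v, 0 ≤ χ v ∧ χ v ≤ 1 := by
    rintro (v | k)
    · simp only [hχdef, Sum.elim_inl]; split_ifs <;> norm_num
    · simp only [hχdef, Sum.elim_inr]; split_ifs <;> norm_num
  set cr : E ⊕ KE M → ℤ := Sum.elim (fun _ => 0)
    (fun p => if (p.1.1 ∈ A ∧ p.1.2 ∉ A) ∨ (p.1.1 ∉ A ∧ p.1.2 ∈ A) then (1 : ℤ) else 0)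
    with hcr
  have hedge : ∀ e, ∃ S : Finset I, (χ ((wedge G x M).src e) * f.slope e -
      χ ((wedge G x M).tgt e) * (f.slope e + tot (f.kink e))) + ∑ t ∈ S, f.kink e t
        ≤ - cr e := by
    have hsame : ∀ e, χ ((wedge G x M).src e) = χ ((wedge G x M).tgt e) → cr e = 0 →
        ∃ S : Finset I, (χ ((wedge G x M).src e) * f.slope e -
      χ ((wedge G x M).tgt e) * (f.slope e + tot (f.kink e))) + ∑ t ∈ S, f.kink e t
        ≤ - cr e := by
      intro e he hc
      have h01 : χ ((wedge G x M).tgt e) = 0 ∨ χ ((wedge G x M).tgt e) = 1 := by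
        have := hχ01 ((wedge G x M).tgt e)
        omega
      rcases h01 with h0 | h1
      · refine ⟨∅, ?_⟩
        rw [he, h0, hc]
        simp
      · refine ⟨(f.kink e).support, ?_⟩
        have : ∑ t ∈ (f.kink e).support, f.kink e t = tot (f.kink e) := rfl
        rw [he, h1, hc, this]
        linarith
    rintro (e | p)
    · exact hsame _ rfl rfl
    · have hs : χ ((wedge G x M).src (Sum.inr p)) = if p.1.1 ∈ A then 1 else 0 := hχ _
      have ht : χ ((wedge G x M).tgt (Sum.inr p)) = if p.1.2 ∈ A then 1 else 0 := hχ _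
      have hcl := f.closes' (Sum.inr p)
      have hcl' : f.val (kap x p.1.1) + f.slope (Sum.inr p) + mom (f.kink (Sum.inr p)) =
        f.val (kap x p.1.2) := hcl
      by_cases h1 : p.1.1 ∈ A <;> by_cases h2 : p.1.2 ∈ A
      · exact hsame _ (by rw [hs, ht]; simp [h1, h2]) (by simp [hcr, h1, h2])
      · rw [hs, ht]
        simp only [h1, h2, if_true, if_false, one_mul, zero_mul, sub_zero]
        have a1 : f.val (kap x i) < f.val (kap x p.1.1) := by simpa [hA] using h1
        have a2 : f.val (kap x p.1.2) ≤ f.val (kap x i) := by simpa [hA] using h2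
        obtain ⟨S, hS⟩ := drop_src (f.kink (Sum.inr p)) (f.slope (Sum.inr p)) (by linarith)
        refine ⟨S, ?_⟩
        simp only [hcr, Sum.elim_inr, h1, h2, not_true_eq_false, not_false_eq_true, and_self,
          and_false, or_false, if_true]
        exact hS
      · rw [hs, ht]
        simp only [h1, h2, if_true, if_false, one_mul, zero_mul, zero_sub]
        have a1 : f.val (kap x i) < f.val (kap x p.1.2) := by simpa [hA] using h2
        have a2 : f.val (kap x p.1.1) ≤ f.val (kap x i) := by simpa [hA] using h1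
        obtain ⟨S, hS⟩ := drop_tgt (f.kink (Sum.inr p)) (f.slope (Sum.inr p)) (by linarith)
        refine ⟨S, ?_⟩
        simp only [hcr, Sum.elim_inr, h1, h2, not_true_eq_false, not_false_eq_true, and_self,
          and_false, false_or, if_true]
        exact hS
      · exact hsame _ (by rw [hs, ht]; simp [h1, h2]) (by simp [hcr, h1, h2])
  choose S hS using hedge
  have s1 := sum_chi (wedge G x M) f χ
  have s2 : - ∑ v, D.1 v ≤ ∑ v, χ v * f.div.1 v := by
    rw [← Finset.sum_neg_distrib]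
    refine Finset.sum_le_sum fun v _ => ?_
    have h1 := hf.1 v
    have h2 := hD.1 v
    simp only [Prod.fst_add, Pi.add_apply] at h1
    have h01 : χ v = 0 ∨ χ v = 1 := by
      have := hχ01 v
      omega
    rcases h01 with h0 | h0 <;> rw [h0] <;> linarith
  have s3 : - ∑ e, tot (D.2 e) ≤ ∑ e, ∑ t ∈ S e, f.kink e t := by
    rw [← Finset.sum_neg_distrib]
    refine Finset.sum_le_sum fun e _ => ?_
    exact sum_ge _ _ (hD.2 e) (fun t => hf.2 e t) (S e)
  have s4 : ∑ e, ((χ ((wedge G x M).src e) * f.slope e -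
      χ ((wedge G x M).tgt e) * (f.slope e + tot (f.kink e))) + ∑ t ∈ S e, f.kink e t)
        ≤ ∑ e, - cr e := Finset.sum_le_sum fun e _ => hS e
  rw [Finset.sum_add_distrib, Finset.sum_neg_distrib] at s4
  have s5 : ∑ e, cr e = ∑ p : KE M, (if (p.1.1 ∈ A ∧ p.1.2 ∉ A) ∨ (p.1.1 ∉ A ∧ p.1.2 ∈ A)
      then (1 : ℤ) else 0) := by
    rw [Fintype.sum_sum_type]
    simp [hcr]
  have s6 := cross_count M A i j hi hj
  rw [deg_def] at hdeg
  linarith

/-- minus a rational function -/
noncomputable def negF {G : MGraph V E} (f : RatFun G) : RatFun G :=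
  mkF G (fun v => - f.val v) (fun e => - f.slope e) (fun e => - f.kink e) (fun e => by
      have h1 := f.closes' e
      have h2 : mom (-(f.kink e)) = - mom (f.kink e) := by
        have := mom_add (f.kink e) (-(f.kink e))
        rw [add_neg_cancel, mom_zero] at this
        linarith
      rw [h2]
      push_cast
      linarith)

lemma div_negF {G : MGraph V E} (f : RatFun G) : (negF f).div = - f.div := by
  refine Prod.ext ?_ ?_
  · funext v
    simp only [Prod.fst_neg, Pi.neg_apply, div_fst]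
    rw [← Finset.sum_neg_distrib]
    refine Finset.sum_congr rfl fun e _ => ?_
    simp only [negF, mkF, tot_neg]
    split_ifs <;> ring
  · funext e
    rfl

theorem lower (G : MGraph V E) (x : V) (M : ℕ) (hM : 0 < M)
    (D : MDiv (V ⊕ Fin M) (E ⊕ KE M))
    (h : ∀ u : Fin M, Dom (wedge G x M) D (ptV (Sum.inr u))) : (M : ℤ) ≤ deg D := by
  classical
  by_contra hlt
  push Not at hlt
  obtain ⟨f, hf⟩ := h ⟨0, hM⟩
  set D1 : MDiv (V ⊕ Fin M) (E ⊕ KE M) := D + f.div with hD1
  have hD1e : Eff D1 := by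
    have := hf.add (eff_ptV (Sum.inr (⟨0, hM⟩ : Fin M)))
    convert this using 1
    rw [hD1]; abel
  have hdeg1 : deg D1 < M := by
    rw [hD1, deg_add, deg_div]
    linarith
  have h1 : ∀ u : Fin M, Dom (wedge G x M) D1 (ptV (Sum.inr u)) := by
    intro u
    refine Dom.trans (Dom.of_div (negF f) ?_) (h u)
    rw [div_negF, hD1]; abel
  set g : KE M → ℤ := fun p => if 2 ≤ tot (D1.2 (Sum.inr p)) then 1 else 0 with hg
  have hg0 : ∀ p, 0 ≤ g p := by
    intro p
    simp only [hg]
    split_ifs <;> norm_num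
  have key : ∀ u : Fin M, 1 ≤ D1.1 (Sum.inr u) +
      ∑ p : KE M, ((if p.1.1 = u.succ then g p else 0) + (if p.1.2 = u.succ then g p else 0)) := by
    intro u
    by_contra hcon
    push Not at hcon
    have a0 := hD1e.1 (Sum.inr u)
    have a1 : 0 ≤ ∑ p : KE M, ((if p.1.1 = u.succ then g p else 0) +
        (if p.1.2 = u.succ then g p else 0)) := by
      refine Finset.sum_nonneg fun p _ => ?_
      have := hg0 p
      split_ifs <;> linarith
    have a2 : ∑ p : KE M, ((if p.1.1 = u.succ then g p else 0) +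
        (if p.1.2 = u.succ then g p else 0)) = 0 := by linarith
    have a3 : D1.1 (Sum.inr u) = 0 := by linarith
    rw [Finset.sum_eq_zero_iff_of_nonneg (fun p _ => by
      have := hg0 p
      split_ifs <;> linarith)] at a2
    obtain ⟨q, hq⟩ := h1 u
    have hq' : Eff (D1 + q.div) := by
      have := hq.add (eff_ptV (Sum.inr u))
      convert this using 1
      abel
    have hc := const_on_K G x M D1 hD1e q hq' hdeg1
    have b := hq.1 (Sum.inr u)
    simp only [Prod.fst_add, Prod.fst_sub, Pi.add_apply, Pi.sub_apply] at b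
    rw [div_fst, a3] at b
    have b2 : (ptV (Sum.inr u) : MDiv (V ⊕ Fin M) (E ⊕ KE M)).1 (Sum.inr u) = 1 := by
      simp [ptV]
    rw [b2] at b
    have b3 : ∑ e, ((if (wedge G x M).src e = Sum.inr u then q.slope e else 0) -
      (if (wedge G x M).tgt e = Sum.inr u then q.slope e + tot (q.kink e) else 0)) ≤ 0 := by
      refine Finset.sum_nonpos fun e _ => ?_
      rcases e with e | p
      · have c1 : (wedge G x M).src (Sum.inl e) ≠ Sum.inr u := by
          simp [wedge]
        have c2 : (wedge G x M).tgt (Sum.inl e) ≠ Sum.inr u := by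
          simp [wedge]
        rw [if_neg c1, if_neg c2]
        norm_num
      · have c1 : (wedge G x M).src (Sum.inr p) = Sum.inr u ↔ p.1.1 = u.succ := by
          rw [← kap_succ x u]
          exact (kap_injective x).eq_iff
        have c2 : (wedge G x M).tgt (Sum.inr p) = Sum.inr u ↔ p.1.2 = u.succ := by
          rw [← kap_succ x u]
          exact (kap_injective x).eq_iff
        simp only [c1, c2]
        have hcl : q.val (kap x p.1.1) + q.slope (Sum.inr p) + mom (q.kink (Sum.inr p)) =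
          q.val (kap x p.1.2) := q.closes' (Sum.inr p)
        have hcl0 : (q.slope (Sum.inr p) : ℝ) + mom (q.kink (Sum.inr p)) = 0 := by
          have := hc p.1.1 p.1.2
          linarith
        have hz := a2 p (mem_univ p)
        have hne := ne_of_lt p.2
        by_cases d1 : p.1.1 = u.succ
        · have d2 : p.1.2 ≠ u.succ := fun h => hne (d1.trans h.symm)
          rw [if_pos d1, if_neg d2] at hz ⊢
          have hz' : ¬ 2 ≤ tot (D1.2 (Sum.inr p)) := by
            intro h2
            simp only [hg, if_pos h2] at hz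
            norm_num at hz
          by_contra hpos
          push Not at hpos
          exact hz' (rise_src (q.kink (Sum.inr p)) (D1.2 (Sum.inr p)) (q.slope (Sum.inr p))
            (hD1e.2 _) (fun t => hq'.2 _ t) hcl0 (by linarith))
        · by_cases d2 : p.1.2 = u.succ
          · rw [if_neg d1, if_pos d2] at hz ⊢
            have hz' : ¬ 2 ≤ tot (D1.2 (Sum.inr p)) := by
              intro h2
              simp only [hg, if_pos h2] at hz
              norm_num at hz
            by_contra hpos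
            push Not at hpos
            exact hz' (rise_tgt (q.kink (Sum.inr p)) (D1.2 (Sum.inr p)) (q.slope (Sum.inr p))
              (hD1e.2 _) (fun t => hq'.2 _ t) hcl0 (by linarith))
          · rw [if_neg d1, if_neg d2]
            norm_num
    linarith
  have tot1 : (M : ℤ) ≤ ∑ u : Fin M, (D1.1 (Sum.inr u) +
      ∑ p : KE M, ((if p.1.1 = u.succ then g p else 0) + (if p.1.2 = u.succ then g p else 0))) := by
    have : ∑ u : Fin M, (1 : ℤ) ≤ ∑ u : Fin M, (D1.1 (Sum.inr u) +
      ∑ p : KE M, ((if p.1.1 = u.succ then g p else 0) +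
        (if p.1.2 = u.succ then g p else 0))) := Finset.sum_le_sum fun u _ => key u
    simpa using this
  rw [Finset.sum_add_distrib, Finset.sum_comm] at tot1
  have tot2 : ∑ p : KE M, ∑ u : Fin M, ((if p.1.1 = u.succ then g p else 0) +
      (if p.1.2 = u.succ then g p else 0)) ≤ ∑ p : KE M, tot (D1.2 (Sum.inr p)) := by
    refine Finset.sum_le_sum fun p _ => ?_
    rw [Finset.sum_add_distrib]
    have one : ∀ i : Fin (M + 1), ∑ u : Fin M, (if i = u.succ then g p else 0) ≤ g p := by
      intro i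
      refine Fin.cases ?_ (fun k => ?_) i
      · rw [Finset.sum_eq_zero]
        · exact hg0 p
        · intro u _
          rw [if_neg (Ne.symm (Fin.succ_ne_zero u))]
      · simp only [Fin.succ_inj]
        rw [Finset.sum_ite_eq]
        simp
    have o1 := one p.1.1
    have o2 := one p.1.2
    have o3 : 2 * g p ≤ tot (D1.2 (Sum.inr p)) := by
      simp only [hg]
      split_ifs with h2
      · linarith
      · have := tot_nonneg _ (hD1e.2 (Sum.inr p))
        linarith
    linarith
  have tot3 : ∑ u : Fin M, D1.1 (Sum.inr u) + ∑ p : KE M, tot (D1.2 (Sum.inr p)) ≤ deg D1 := by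
    rw [deg_def, Fintype.sum_sum_type, Fintype.sum_sum_type]
    have z1 : 0 ≤ ∑ v : V, D1.1 (Sum.inl v) := Finset.sum_nonneg fun v _ => hD1e.1 _
    have z2 : 0 ≤ ∑ e : E, tot (D1.2 (Sum.inl e)) :=
      Finset.sum_nonneg fun e _ => tot_nonneg _ (hD1e.2 _)
    linarith
  linarith

end Pool.Agent.V11142.WG
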