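import Pool.Agent.V11142.WG.Lower
import Pool.Agent.H997R3.Gon.Sub

/-!
# From the first subdivision of a graph to its metric graph
-/

set_option autoImplicit false

namespace Pool.Agent.V11142.WG

open Pool.Agent.H997R3.Gon Finset

/-! ### The maximum of two affine functions on half an edge -/

lemma half_aux (a1 a2 b1 b2 : ℝ) (p q : ℤ) (ha : a2 = a1 + p / 2) (hb : b2 = b1 + q / 2)
    (hab : b1 ≤ a1) :
    ∃ (m k : ℤ) (τ : ℝ), 0 ≤ k ∧ 0 < τ ∧ τ < 1 / 2 ∧
      max a2 b2 = max a1 b1 + m / 2 + k * (1 / 2 - τ) ∧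
      (b1 ≤ a1 → p ≤ m) ∧ (a1 ≤ b1 → q ≤ m) ∧ (b2 ≤ a2 → m + k ≤ p) ∧ (a2 ≤ b2 → m + k ≤ q) ∧
      (∀ t0 : ℝ, 0 < t0 → t0 < 1 / 2 → p ≠ q → a1 + p * t0 = b1 + q * t0 →
        1 ≤ k ∧ τ = t0) := by
  rcases le_or_gt b2 a2 with h2 | h2
  · refine ⟨p, 0, 1 / 4, le_rfl, by norm_num, by norm_num, ?_, fun _ => le_rfl, ?_,
      fun _ => by simp, ?_, ?_⟩
    · rw [max_eq_left h2, max_eq_left hab, ha]
      push_cast
      ring
    · intro h
      have : (q : ℝ) ≤ p := by linarith
      exact_mod_cast this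
    · intro h
      have : (p : ℝ) ≤ q := by linarith
      have : p ≤ q := by exact_mod_cast this
      simpa using this
    · intro t0 h0 h1 hne hcr
      exfalso
      rcases lt_or_gt_of_ne hne with h | h
      · have h' : (p : ℝ) < q := by exact_mod_cast h
        nlinarith
      · have h' : (q : ℝ) < p := by exact_mod_cast h
        nlinarith
  · rcases eq_or_lt_of_le hab with h1 | h1
    · refine ⟨q, 0, 1 / 4, le_rfl, by norm_num, by norm_num, ?_, ?_, fun _ => le_rfl, ?_,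
        fun _ => by simp, ?_⟩
      · rw [max_eq_right h2.le, max_eq_right h1.symm.le, hb]
        push_cast
        ring
      · intro _
        have : (p : ℝ) ≤ q := by linarith
        exact_mod_cast this
      · intro h
        linarith
      · intro t0 h0 h3 hne hcr
        exfalso
        rcases lt_or_gt_of_ne hne with h | h
        · have h' : (p : ℝ) < q := by exact_mod_cast h
          nlinarith
        · have h' : (q : ℝ) < p := by exact_mod_cast h
          nlinarith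
    · have hpq : (p : ℝ) < q := by linarith
      have hpq' : p < q := by exact_mod_cast hpq
      have hd : (0 : ℝ) < q - p := by linarith
      have e1 : ((q : ℝ) - p) * ((a1 - b1) / (q - p)) = a1 - b1 := by
        field_simp
      refine ⟨p, q - p, (a1 - b1) / (q - p), by linarith, div_pos (by linarith) hd, ?_, ?_,
        fun _ => le_rfl, ?_, ?_, fun _ => by linarith, ?_⟩
      · rw [div_lt_iff₀ hd]
        linarith
      · rw [max_eq_right h2.le, max_eq_left hab, hb]
        push_cast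
        have e2 : ((q : ℝ) - p) * (1 / 2 - (a1 - b1) / (q - p)) = (q - p) / 2 - (a1 - b1) := by
          rw [mul_sub, e1]
          ring
        rw [e2]
        ring
      · intro h
        linarith
      · intro h
        linarith
      · intro t0 h0 h3 hne hcr
        refine ⟨by omega, ?_⟩
        rw [div_eq_iff (ne_of_gt hd)]
        linarith

lemma half (a1 a2 b1 b2 : ℝ) (p q : ℤ) (ha : a2 = a1 + p / 2) (hb : b2 = b1 + q / 2) :
    ∃ (m k : ℤ) (τ : ℝ), 0 ≤ k ∧ 0 < τ ∧ τ < 1 / 2 ∧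
      max a2 b2 = max a1 b1 + m / 2 + k * (1 / 2 - τ) ∧
      (b1 ≤ a1 → p ≤ m) ∧ (a1 ≤ b1 → q ≤ m) ∧ (b2 ≤ a2 → m + k ≤ p) ∧ (a2 ≤ b2 → m + k ≤ q) ∧
      (∀ t0 : ℝ, 0 < t0 → t0 < 1 / 2 → p ≠ q → a1 + p * t0 = b1 + q * t0 →
        1 ≤ k ∧ τ = t0) := by
  rcases le_total b1 a1 with h | h
  · exact half_aux a1 a2 b1 b2 p q ha hb h
  · obtain ⟨m, k, τ, h1, h2, h3, h4, h5, h6, h7, h8, h9⟩ := half_aux b1 b2 a1 a2 q p hb ha h
    refine ⟨m, k, τ, h1, h2, h3, ?_, h6, h5, h8, h7, ?_⟩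
    · rw [max_comm a2, max_comm a1]; exact h4
    · intro t0 g0 g1 g2 g3
      exact h9 t0 g0 g1 (Ne.symm g2) g3.symm

/-- the midpoint of an edge -/
noncomputable def hf : I := ⟨1 / 2, by norm_num, by norm_num⟩

variable {V E : Type} [Fintype V] [DecidableEq V] [Fintype E]

/-- the midpoint of an edge, as a vertex of the first subdivision -/
def md (e : E) : V ⊕ (E × Fin (2 - 1)) := Sum.inr (e, ⟨0, by norm_num⟩)

lemma lap_vertex [DecidableEq E] (G : MGraph V E) (f : V ⊕ (E × Fin (2 - 1)) → ℤ) (v : V) :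
    (G.subdiv 2).lap f (Sum.inl v) =
      ∑ e : E, ((if G.src e = v then f (Sum.inl v) - f (md e) else 0) +
        (if G.tgt e = v then f (Sum.inl v) - f (md e) else 0)) := by
  rw [MGraph.lap_subdiv_inl G (by norm_num)]
  rfl

lemma lap_mid [DecidableEq E] (G : MGraph V E) (f : V ⊕ (E × Fin (2 - 1)) → ℤ) (e : E) :
    (G.subdiv 2).lap f (md e) = (f (md e) - f (Sum.inl (G.tgt e))) +
      (f (md e) - f (Sum.inl (G.src e))) := by
  unfold md
  rw [MGraph.lap_subdiv_inr]
  rfl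

/-- a divisor on the first subdivision of `G`, as a divisor on the metric graph of the wedge -/
noncomputable def emb (M : ℕ) (D : V ⊕ (E × Fin (2 - 1)) → ℤ) :
    MDiv (V ⊕ Fin M) (E ⊕ KE M) :=
  (Sum.elim (fun v => D (Sum.inl v)) (fun _ => 0),
    Sum.elim (fun e => Finsupp.single hf (D (md e))) (fun _ => 0))

/-- the maximum of two functions on the first subdivision -/
lemma maxfun [DecidableEq E] (G : MGraph V E) (x : V) (M : ℕ)
    (D φ ψ : V ⊕ (E × Fin (2 - 1)) → ℤ)
    (hφ : ∀ w, 0 ≤ D w - (G.subdiv 2).lap φ w) (hψ : ∀ w, 0 ≤ D w - (G.subdiv 2).lap ψ w)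
    (c : ℝ) : ∃ F : RatFun (wedge G x M), Eff (emb M D + F.div) ∧
      (∀ v, (ψ (Sum.inl v) : ℝ) / 2 + c ≤ φ (Sum.inl v) / 2 →
        D (Sum.inl v) - (G.subdiv 2).lap φ (Sum.inl v) ≤ (emb M D + F.div).1 (Sum.inl v)) ∧
      (∀ v, (φ (Sum.inl v) : ℝ) / 2 ≤ ψ (Sum.inl v) / 2 + c →
        D (Sum.inl v) - (G.subdiv 2).lap ψ (Sum.inl v) ≤ (emb M D + F.div).1 (Sum.inl v)) ∧
      (∀ e, (ψ (md e) : ℝ) / 2 + c ≤ φ (md e) / 2 →
        D (md e) - (G.subdiv 2).lap φ (md e) ≤ (emb M D + F.div).2 (Sum.inl e) hf) ∧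
      (∀ e, (φ (md e) : ℝ) / 2 ≤ ψ (md e) / 2 + c →
        D (md e) - (G.subdiv 2).lap ψ (md e) ≤ (emb M D + F.div).2 (Sum.inl e) hf) ∧
      (∀ e (t : I), (t : ℝ) < 1 / 2 →
        φ (md e) - φ (Sum.inl (G.src e)) ≠ ψ (md e) - ψ (Sum.inl (G.src e)) →
        (φ (Sum.inl (G.src e)) : ℝ) / 2 + (φ (md e) - φ (Sum.inl (G.src e)) : ℤ) * (t : ℝ) =
          (ψ (Sum.inl (G.src e)) : ℝ) / 2 + c +
            (ψ (md e) - ψ (Sum.inl (G.src e)) : ℤ) * (t : ℝ) →
        1 ≤ (emb M D + F.div).2 (Sum.inl e) t) ∧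
      (∀ e (t : I), 1 / 2 < (t : ℝ) →
        φ (Sum.inl (G.tgt e)) - φ (md e) ≠ ψ (Sum.inl (G.tgt e)) - ψ (md e) →
        (φ (md e) : ℝ) / 2 + (φ (Sum.inl (G.tgt e)) - φ (md e) : ℤ) * ((t : ℝ) - 1 / 2) =
          (ψ (md e) : ℝ) / 2 + c +
            (ψ (Sum.inl (G.tgt e)) - ψ (md e) : ℤ) * ((t : ℝ) - 1 / 2) →
        1 ≤ (emb M D + F.div).2 (Sum.inl e) t) := by
  classical
  have H1 := fun e : E => half ((φ (Sum.inl (G.src e)) : ℝ) / 2) ((φ (md e) : ℝ) / 2)
    ((ψ (Sum.inl (G.src e)) : ℝ) / 2 + c) ((ψ (md e) : ℝ) / 2 + c)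
    (φ (md e) - φ (Sum.inl (G.src e))) (ψ (md e) - ψ (Sum.inl (G.src e)))
    (by push_cast; ring) (by push_cast; ring)
  have H2 := fun e : E => half ((φ (md e) : ℝ) / 2) ((φ (Sum.inl (G.tgt e)) : ℝ) / 2)
    ((ψ (md e) : ℝ) / 2 + c) ((ψ (Sum.inl (G.tgt e)) : ℝ) / 2 + c)
    (φ (Sum.inl (G.tgt e)) - φ (md e)) (ψ (Sum.inl (G.tgt e)) - ψ (md e))
    (by push_cast; ring) (by push_cast; ring)
  choose m1 k1 τ1 hk1 ht1 ht1' hmax1 ha1 hb1 hc1 hd1 hcr1 using H1
  choose m2 k2 τ2 hk2 ht2 ht2' hmax2 ha2 hb2 hc2 hd2 hcr2 using H2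
  set T1 : E → I := fun e => ⟨τ1 e, ht1 e, by have := ht1' e; linarith⟩ with hT1
  set T2 : E → I := fun e => ⟨1 / 2 + τ2 e, by have := ht2 e; linarith,
    by have := ht2' e; linarith⟩ with hT2
  set val : V ⊕ Fin M → ℝ := Sum.elim
    (fun v => max ((φ (Sum.inl v) : ℝ) / 2) ((ψ (Sum.inl v) : ℝ) / 2 + c))
    (fun _ => max ((φ (Sum.inl x) : ℝ) / 2) ((ψ (Sum.inl x) : ℝ) / 2 + c)) with hval
  set kk : E → I →₀ ℤ := fun e => Finsupp.single (T1 e) (k1 e) +
    Finsupp.single hf (m2 e - m1 e - k1 e) + Finsupp.single (T2 e) (k2 e) with hkk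
  have hvk : ∀ i, val (kap x i) = max ((φ (Sum.inl x) : ℝ) / 2) ((ψ (Sum.inl x) : ℝ) / 2 + c) := by
    intro i
    refine Fin.cases rfl (fun _ => rfl) i
  have hclose : ∀ e : E ⊕ KE M, val ((wedge G x M).src e) +
      ((Sum.elim m1 (fun _ => 0) e : ℤ) : ℝ) + mom (Sum.elim kk (fun _ => 0) e) =
        val ((wedge G x M).tgt e) := by
    rintro (e | p)
    · show max ((φ (Sum.inl (G.src e)) : ℝ) / 2) ((ψ (Sum.inl (G.src e)) : ℝ) / 2 + c) +
        (m1 e : ℝ) + mom (kk e) =
        max ((φ (Sum.inl (G.tgt e)) : ℝ) / 2) ((ψ (Sum.inl (G.tgt e)) : ℝ) / 2 + c)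
      rw [hmax2 e, hmax1 e]
      simp only [hkk, mom_add, mom_single, hT1, hT2, hf]
      push_cast
      ring
    · show val (kap x p.1.1) + ((0 : ℤ) : ℝ) + mom (0 : I →₀ ℤ) = val (kap x p.1.2)
      rw [hvk, hvk, mom_zero]
      simp
  set F : RatFun (wedge G x M) := mkF (wedge G x M) val (Sum.elim m1 (fun _ => 0))
    (Sum.elim kk (fun _ => 0)) hclose with hF
  have htot : ∀ e, m1 e + tot (kk e) = m2 e + k2 e := by
    intro e
    simp only [hkk, tot_add, tot_single]
    ring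
  have hdivV : ∀ v, (emb M D + F.div).1 (Sum.inl v) = D (Sum.inl v) +
      ∑ e : E, ((if G.src e = v then m1 e else 0) -
        (if G.tgt e = v then m2 e + k2 e else 0)) := by
    intro v
    simp only [Prod.fst_add, Pi.add_apply]
    rw [div_fst, Fintype.sum_sum_type]
    have z : ∑ p : KE M, ((if (wedge G x M).src (Sum.inr p) = Sum.inl v then
        F.slope (Sum.inr p) else 0) - (if (wedge G x M).tgt (Sum.inr p) = Sum.inl v then
        F.slope (Sum.inr p) + tot (F.kink (Sum.inr p)) else 0)) = 0 := by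
      refine Finset.sum_eq_zero fun p _ => ?_
      have z1 : F.slope (Sum.inr p) = 0 := rfl
      have z2 : F.kink (Sum.inr p) = 0 := rfl
      rw [z1, z2]
      simp
    rw [z, add_zero]
    congr 1
    refine Finset.sum_congr rfl fun e _ => ?_
    have z1 : F.slope (Sum.inl e) = m1 e := rfl
    have z2 : F.kink (Sum.inl e) = kk e := rfl
    rw [z1, z2, htot]
    simp [wedge]
  have hdivE : ∀ e t, (emb M D + F.div).2 (Sum.inl e) t =
      (Finsupp.single hf (D (md e)) t) + kk e t := fun e t => rfl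
  have hhf : ∀ e, (T1 e) ≠ hf := by
    intro e h
    have := congrArg (fun s : I => (s : ℝ)) h
    simp only [hT1, hf] at this
    have := ht1' e
    linarith
  have hhf2 : ∀ e, (T2 e) ≠ hf := by
    intro e h
    have := congrArg (fun s : I => (s : ℝ)) h
    simp only [hT2, hf] at this
    have := ht2 e
    linarith
  have hmid : ∀ e, (emb M D + F.div).2 (Sum.inl e) hf = D (md e) + (m2 e - m1 e - k1 e) := by
    intro e
    rw [hdivE]
    simp only [hkk, Finsupp.add_apply, Finsupp.single_eq_same]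
    rw [Finsupp.single_eq_of_ne (Ne.symm (hhf e)), Finsupp.single_eq_of_ne (Ne.symm (hhf2 e))]
    ring
  have P1 : ∀ v, (ψ (Sum.inl v) : ℝ) / 2 + c ≤ φ (Sum.inl v) / 2 →
        D (Sum.inl v) - (G.subdiv 2).lap φ (Sum.inl v) ≤ (emb M D + F.div).1 (Sum.inl v) := by
    intro v hv
    rw [hdivV, lap_vertex, sub_eq_add_neg, ← Finset.sum_neg_distrib]
    have : ∑ e : E, -((if G.src e = v then φ (Sum.inl v) - φ (md e) else 0) +
        (if G.tgt e = v then φ (Sum.inl v) - φ (md e) else 0)) ≤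
        ∑ e : E, ((if G.src e = v then m1 e else 0) -
        (if G.tgt e = v then m2 e + k2 e else 0)) := by
      refine Finset.sum_le_sum fun e _ => ?_
      have q1 : G.src e = v → φ (md e) - φ (Sum.inl v) ≤ m1 e := by
        rintro rfl
        exact ha1 e hv
      have q2 : G.tgt e = v → m2 e + k2 e ≤ φ (Sum.inl v) - φ (md e) := by
        rintro rfl
        exact hc2 e hv
      split_ifs with g1 g2 g2
      · have := q1 g1; have := q2 g2; linarith
      · have := q1 g1; linarith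
      · have := q2 g2; linarith
      · norm_num
    linarith
  have P2 : ∀ v, (φ (Sum.inl v) : ℝ) / 2 ≤ ψ (Sum.inl v) / 2 + c →
        D (Sum.inl v) - (G.subdiv 2).lap ψ (Sum.inl v) ≤ (emb M D + F.div).1 (Sum.inl v) := by
    intro v hv
    rw [hdivV, lap_vertex, sub_eq_add_neg, ← Finset.sum_neg_distrib]
    have : ∑ e : E, -((if G.src e = v then ψ (Sum.inl v) - ψ (md e) else 0) +
        (if G.tgt e = v then ψ (Sum.inl v) - ψ (md e) else 0)) ≤
        ∑ e : E, ((if G.src e = v then m1 e else 0) -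
        (if G.tgt e = v then m2 e + k2 e else 0)) := by
      refine Finset.sum_le_sum fun e _ => ?_
      have q1 : G.src e = v → ψ (md e) - ψ (Sum.inl v) ≤ m1 e := by
        rintro rfl
        exact hb1 e hv
      have q2 : G.tgt e = v → m2 e + k2 e ≤ ψ (Sum.inl v) - ψ (md e) := by
        rintro rfl
        exact hd2 e hv
      split_ifs with g1 g2 g2
      · have := q1 g1; have := q2 g2; linarith
      · have := q1 g1; linarith
      · have := q2 g2; linarith
      · norm_num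
    linarith
  have P3 : ∀ e, (ψ (md e) : ℝ) / 2 + c ≤ φ (md e) / 2 →
        D (md e) - (G.subdiv 2).lap φ (md e) ≤ (emb M D + F.div).2 (Sum.inl e) hf := by
    intro e he
    rw [hmid, lap_mid]
    have := hc1 e he
    have := ha2 e he
    linarith
  have P4 : ∀ e, (φ (md e) : ℝ) / 2 ≤ ψ (md e) / 2 + c →
        D (md e) - (G.subdiv 2).lap ψ (md e) ≤ (emb M D + F.div).2 (Sum.inl e) hf := by
    intro e he
    rw [hmid, lap_mid]
    have := hd1 e he
    have := hb2 e he
    linarith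
  refine ⟨F, ⟨?_, ?_⟩, P1, P2, P3, P4, ?_, ?_⟩
  · rintro (v | i)
    · rcases le_total ((ψ (Sum.inl v) : ℝ) / 2 + c) (φ (Sum.inl v) / 2) with h | h
      · exact le_trans (hφ _) (P1 v h)
      · exact le_trans (hψ _) (P2 v h)
    · simp only [Prod.fst_add, Pi.add_apply]
      rw [div_fst]
      have z0 : (emb M D).1 (Sum.inr i) = 0 := rfl
      rw [z0, zero_add]
      refine Finset.sum_nonneg fun e _ => ?_
      rcases e with e | p
      · have c1 : (wedge G x M).src (Sum.inl e) ≠ Sum.inr i := by simp [wedge]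
        have c2 : (wedge G x M).tgt (Sum.inl e) ≠ Sum.inr i := by simp [wedge]
        rw [if_neg c1, if_neg c2]
        norm_num
      · have z1 : F.slope (Sum.inr p) = 0 := rfl
        have z2 : F.kink (Sum.inr p) = 0 := rfl
        rw [z1, z2]
        simp
  · rintro (e | p) t
    · by_cases ht : t = hf
      · subst ht
        rcases le_total ((ψ (md e) : ℝ) / 2 + c) (φ (md e) / 2) with h | h
        · exact le_trans (hφ _) (P3 e h)
        · exact le_trans (hψ _) (P4 e h)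
      · rw [hdivE, Finsupp.single_eq_of_ne ht]
        simp only [hkk, Finsupp.add_apply]
        rw [Finsupp.single_eq_of_ne ht, Finsupp.single_apply, Finsupp.single_apply]
        have := hk1 e
        have := hk2 e
        split_ifs <;> linarith
    · show (0 : ℤ) ≤ 0 + 0
      norm_num
  · intro e t ht hne hcr
    obtain ⟨g1, g2⟩ := hcr1 e t t.2.1 ht hne hcr
    have hT : T1 e = t := Subtype.ext g2
    have ht' : t ≠ hf := by
      rw [← hT]; exact hhf e
    rw [hdivE, Finsupp.single_eq_of_ne ht']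
    simp only [hkk, Finsupp.add_apply]
    rw [Finsupp.single_eq_of_ne ht', hT, Finsupp.single_eq_same, Finsupp.single_apply]
    have := hk2 e
    split_ifs <;> linarith
  · intro e t ht hne hcr
    have h1 := t.2.2
    obtain ⟨g1, g2⟩ := hcr2 e (t - 1 / 2) (by linarith) (by linarith) hne hcr
    have hT : T2 e = t := Subtype.ext (by show 1 / 2 + τ2 e = t; rw [g2]; ring)
    have ht' : t ≠ hf := by
      rw [← hT]; exact hhf2 e
    rw [hdivE, Finsupp.single_eq_of_ne ht']
    simp only [hkk, Finsupp.add_apply]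
    rw [Finsupp.single_eq_of_ne ht', hT, Finsupp.single_eq_same, Finsupp.single_apply]
    have := hk1 e
    split_ifs <;> linarith

end Pool.Agent.V11142.WG
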