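import Pool.Agent.V11142.WG.TwoLower
import Pool.Agent.V11142.WG.CoverG

/-!
# The gonalities of the wedge
-/

set_option autoImplicit false

namespace Pool.Agent.V11142.WG

open Pool.Agent.H997R3.Gon Finset

variable {V E : Type} [Fintype V] [DecidableEq V] [Fintype E]
variable (G : MGraph V E) (x : V) (M : ℕ)

omit [Fintype V] [DecidableEq V] [Fintype E] in
lemma wedge_connected (hG : G.Connected) : (wedge G x M).Connected := by
  unfold MGraph.Connected at hG ⊢
  set S0 := SimpleGraph.fromRel (fun a b => ∃ e, G.src e = a ∧ G.tgt e = b) with hS0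
  set S1 := SimpleGraph.fromRel
    (fun a b => ∃ e, (wedge G x M).src e = a ∧ (wedge G x M).tgt e = b) with hS1
  have hom : ∀ a b, S0.Adj a b → S1.Adj (Sum.inl a) (Sum.inl b) := by
    intro a b hab
    rw [hS0, SimpleGraph.fromRel_adj] at hab
    rw [hS1, SimpleGraph.fromRel_adj]
    refine ⟨fun h => hab.1 (Sum.inl_injective h), ?_⟩
    rcases hab.2 with ⟨e, h1, h2⟩ | ⟨e, h1, h2⟩
    · exact Or.inl ⟨Sum.inl e, by simp [wedge, h1], by simp [wedge, h2]⟩
    · exact Or.inr ⟨Sum.inl e, by simp [wedge, h1], by simp [wedge, h2]⟩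
  have hleft : ∀ a b, S1.Reachable (Sum.inl a) (Sum.inl b) := by
    intro a b
    obtain ⟨w⟩ := hG.preconnected a b
    induction w with
    | nil => exact SimpleGraph.Reachable.refl _
    | @cons u v w hadj _ ih => exact (hom u v hadj).reachable.trans ih
  have hright : ∀ k : Fin M, S1.Reachable (Sum.inl x) (Sum.inr k) := by
    intro k
    refine SimpleGraph.Adj.reachable ?_
    rw [hS1, SimpleGraph.fromRel_adj]
    refine ⟨by simp, Or.inl ⟨Sum.inr ⟨(0, k.succ), Fin.succ_pos k⟩, rfl, rfl⟩⟩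
  have hx : ∀ v, S1.Reachable (Sum.inl x) v := by
    rintro (v | k)
    · exact hleft x v
    · exact hright k
  rw [SimpleGraph.connected_iff]
  exact ⟨fun a b => (hx a).symm.trans (hx b), ⟨Sum.inl x⟩⟩

omit [Fintype V] [Fintype E] in
lemma smul_single_inl : (M • Pi.single (Sum.inl x) 1 : V ⊕ Fin M → ℤ) =
    Sum.elim (M • Pi.single x 1) (fun _ => 0) := by
  funext w
  rcases w with w | k
  · simp only [Pi.smul_apply, Sum.elim_inl, single_inl]
  · simp only [Pi.smul_apply, Sum.elim_inr, single_inl]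
    simp

omit [Fintype V] in
lemma fdom_pair (h : ∀ v w, FDom G (M • Pi.single x 1) (Pi.single v 1 + Pi.single w 1))
    (v w : V) : FDom (wedge G x M) (M • Pi.single (Sum.inl x) 1)
      (Pi.single (Sum.inl v) 1 + Pi.single (Sum.inl w) 1) := by
  have h1 := ext_fdom G x M (h v w)
  rw [smul_single_inl]
  have h2 : (Pi.single (Sum.inl v) 1 + Pi.single (Sum.inl w) 1 : V ⊕ Fin M → ℤ) =
      Sum.elim (Pi.single v 1 + Pi.single w 1) (fun _ => 0) := by
    rw [single_inl, single_inl]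
    funext u
    rcases u with u | k <;> simp
  rw [h2]
  exact h1

omit [Fintype V] in
lemma fdom_all (h : ∀ v w, FDom G (M • Pi.single x 1) (Pi.single v 1 + Pi.single w 1))
    (v : V ⊕ Fin M) : FDom (wedge G x M) (M • Pi.single (Sum.inl x) 1) (Pi.single v 1) := by
  rcases v with v | k
  · refine (fdom_pair G x M h v v).trans (FDom.of_le fun u => ?_)
    simp only [Pi.add_apply]
    have : 0 ≤ (Pi.single (Sum.inl v) 1 : V ⊕ Fin M → ℤ) u := by
      rw [Pi.single_apply]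
      split_ifs <;> norm_num
    linarith
  · exact fdom_inr G x M k

lemma vert_smul (N : ℕ) (v : V ⊕ Fin M) :
    ((N • Pi.single v 1, 0) : MDiv (V ⊕ Fin M) (E ⊕ KE M)) = N • ptV v := by
  refine Prod.ext rfl ?_
  show (0 : E ⊕ KE M → I →₀ ℤ) = N • 0
  simp

lemma dom_pair (h : ∀ v w, FDom G (M • Pi.single x 1) (Pi.single v 1 + Pi.single w 1))
    (v w : V) : Dom (wedge G x M) (M • ptV (Sum.inl x))
      (ptV (Sum.inl v) + ptV (Sum.inl w)) := by
  have h1 := (fdom_pair G x M h v w).toDom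
  rw [vert_smul] at h1
  have h2 : ((Pi.single (Sum.inl v) 1 + Pi.single (Sum.inl w) 1, 0) :
      MDiv (V ⊕ Fin M) (E ⊕ KE M)) = ptV (Sum.inl v) + ptV (Sum.inl w) := by
    refine Prod.ext rfl ?_
    show (0 : E ⊕ KE M → I →₀ ℤ) = 0 + 0
    simp
  rw [h2] at h1
  exact h1

/-- points of the first part -/
def InG (P : MDiv (V ⊕ Fin M) (E ⊕ KE M)) : Prop :=
  (∃ v, P = ptV (Sum.inl v)) ∨ ∃ e t, P = ptE (Sum.inl e) t

/-- points of the complete graph -/
def InK (P : MDiv (V ⊕ Fin M) (E ⊕ KE M)) : Prop :=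
  ∃ (p : KE M) (s : ℝ), 0 ≤ s ∧ s ≤ 1 ∧ P = pe (wedge G x M) (Sum.inr p) s

lemma in_or (P : MDiv (V ⊕ Fin M) (E ⊕ KE M)) (h : IsPt P) : InG M P ∨ InK G x M P := by
  rcases h with ⟨v | k, rfl⟩ | ⟨e | p, t, rfl⟩
  · exact Or.inl (Or.inl ⟨v, rfl⟩)
  · refine Or.inr ⟨⟨(0, k.succ), Fin.succ_pos k⟩, 1, by norm_num, le_rfl, ?_⟩
    rw [pe_tgt]
    rfl
  · exact Or.inl (Or.inr ⟨e, t, rfl⟩)
  · exact Or.inr ⟨p, t, t.2.1.le, t.2.2.le, (pe_mid _ _ t).symm⟩

lemma dom_G (h : ∀ v w, FDom G (M • Pi.single x 1) (Pi.single v 1 + Pi.single w 1))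
    (P : MDiv (V ⊕ Fin M) (E ⊕ KE M)) (hP : InG M P) :
    Dom (wedge G x M) (M • ptV (Sum.inl x)) P := by
  rcases hP with ⟨v, rfl⟩ | ⟨e, t, rfl⟩
  · refine dom_of_ge (dom_pair G x M h v v) ?_
    rw [add_sub_cancel_right]
    exact eff_ptV _
  · have h1 := dom_pair G x M h (G.src e) (G.tgt e)
    have e1 : pe (wedge G x M) (Sum.inl e) 0 = ptV (Sum.inl (G.src e)) := pe_low _ _ _ le_rfl
    have e2 : pe (wedge G x M) (Sum.inl e) 1 = ptV (Sum.inl (G.tgt e)) := pe_high _ _ _ le_rfl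
    rw [← e1, ← e2] at h1
    have ht0 := t.2.1
    have ht1 := t.2.2
    refine h1.trans (dom_of_ge (two (wedge G x M) (Sum.inl e) 0 1 t (1 - t)
      ⟨le_rfl, by norm_num⟩ ⟨by norm_num, le_rfl⟩ ⟨ht0.le, ht1.le⟩
      ⟨by linarith, by linarith⟩ (by ring)) ?_)
    rw [pe_mid, add_sub_cancel_left]
    exact eff_pe _ _ _

lemma dom_K (P : MDiv (V ⊕ Fin M) (E ⊕ KE M)) (hP : InK G x M P) :
    Dom (wedge G x M) (M • ptV (Sum.inl x)) P := by
  obtain ⟨p, s, h0, h1, rfl⟩ := hP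
  exact cover_one G x M p s ⟨h0, h1⟩

lemma deg_smul_ptV (N : ℕ) (v : V ⊕ Fin M) :
    deg (N • ptV v : MDiv (V ⊕ Fin M) (E ⊕ KE M)) = N := by
  induction N with
  | zero =>
    rw [zero_smul, deg_def]
    simp
  | succ n ih =>
    rw [succ_nsmul, deg_add, ih, deg_ptV]
    push_cast
    ring

theorem mdgon_one (hM : 0 < M)
    (h : ∀ v w, FDom G (M • Pi.single x 1) (Pi.single v 1 + Pi.single w 1)) :
    mdgon (wedge G x M) 1 = M := by
  have hmem : M ∈ {d : ℕ | ∃ D : MDiv (V ⊕ Fin M) (E ⊕ KE M),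
      MRankGE (wedge G x M) D 1 ∧ deg D = (d : ℤ)} := by
    refine ⟨M • ptV (Sum.inl x), mrank_one _ _ (fun P hP => ?_), deg_smul_ptV M M _⟩
    rcases in_or G x M P hP with h1 | h1
    · exact dom_G G x M h P h1
    · exact dom_K G x M P h1
  refine le_antisymm (Nat.sInf_le hmem) (le_csInf ⟨_, hmem⟩ ?_)
  rintro d ⟨D, hD, hd⟩
  have := lower G x M hM D (fun u => dom_of_mrank _ D _ hD (Or.inl ⟨_, rfl⟩) (eff_ptV _))
  rw [hd] at this
  exact_mod_cast this

theorem dgon_one (hM : 0 < M)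
    (h : ∀ v w, FDom G (M • Pi.single x 1) (Pi.single v 1 + Pi.single w 1)) :
    dgon (wedge G x M) 1 = M := by
  have hmem : M ∈ {d : ℕ | ∃ D : V ⊕ Fin M → ℤ,
      RankGE (wedge G x M) D 1 ∧ ∑ v, D v = (d : ℤ)} := by
    refine ⟨M • Pi.single (Sum.inl x) 1, frank_one _ _ (fdom_all G x M h), ?_⟩
    simp only [Pi.smul_apply, nsmul_eq_mul, ← Finset.mul_sum, Finset.sum_pi_single', mem_univ,
      if_true, mul_one]
  refine le_antisymm (Nat.sInf_le hmem) (le_csInf ⟨_, hmem⟩ ?_)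
  rintro d ⟨D, hD, hd⟩
  have := lower G x M hM (D, 0) (fun u => (fdom_of_rank _ D (Pi.single (Sum.inr u) 1) 1 hD
    (fun v => by
      rw [Pi.single_apply]
      split_ifs <;> norm_num)
    (by
      rw [Finset.sum_pi_single']
      simp)).toDom)
  rw [deg_def] at this
  simp only [Pi.zero_apply, tot_zero, Finset.sum_const_zero, add_zero, hd] at this
  exact_mod_cast this

theorem mdgon_two [DecidableEq E]
    (h : ∀ v w, FDom G (M • Pi.single x 1) (Pi.single v 1 + Pi.single w 1)) :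
    mdgon (wedge G x M) 2 ≤ (G.subdiv 2).gon + M := by
  obtain ⟨D, hD, hd⟩ := MGraph.exists_gon (G.subdiv 2)
  have hE : ∀ P, InG M P → Dom (wedge G x M) (emb M D) P := by
    rintro P (⟨v, rfl⟩ | ⟨e, t, rfl⟩)
    · exact dom_inl G x M D hD v
    · exact dom_edge G x M D hD e t
  refine Nat.sInf_le ⟨emb M D + M • ptV (Sum.inl x), mrank_two _ _ (fun P Q hP hQ => ?_), ?_⟩
  · rcases in_or G x M P hP with h1 | h1 <;> rcases in_or G x M Q hQ with h2 | h2
    · exact (hE P h1).add (dom_G G x M h Q h2)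
    · exact (hE P h1).add (dom_K G x M Q h2)
    · rw [add_comm P Q]
      exact (hE Q h2).add (dom_K G x M P h1)
    · obtain ⟨p, s, hs0, hs1, rfl⟩ := h1
      obtain ⟨q, t, ht0, ht1, rfl⟩ := h2
      refine Dom.trans ?_ (cover_two G x M p q s t ⟨hs0, hs1⟩ ⟨ht0, ht1⟩)
      rw [succ_nsmul, add_comm (M • ptV (Sum.inl x)) (ptV (Sum.inl x))]
      exact (hE _ (Or.inl ⟨x, rfl⟩)).add (Dom.refl _)
  · rw [deg_add, deg_smul_ptV]
    have h1 : deg (emb M D) = ∑ v, D v := by
      rw [deg_def, Fintype.sum_sum_type, Fintype.sum_sum_type, Fintype.sum_sum_type]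
      have h2 : ∀ e, tot ((emb M D).2 (Sum.inl e)) = D (md e) := fun e => tot_single _ _
      have h3 : ∀ p : KE M, tot ((emb M D).2 (Sum.inr p)) = 0 := fun p => tot_zero
      have h4 : ∑ q : E × Fin (2 - 1), D (Sum.inr q) = ∑ e, D (md e) := by
        rw [Fintype.sum_prod_type]
        refine Finset.sum_congr rfl fun e _ => ?_
        exact Fin.sum_univ_one _
      simp only [h2, h3, h4]
      simp [emb]
    rw [h1, hd]
    push_cast
    ring

theorem dgon_two (hM : 0 < M)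
    (h : ∀ v w, FDom G (M • Pi.single x 1) (Pi.single v 1 + Pi.single w 1)) :
    G.gon + M ≤ dgon (wedge G x M) 2 := by
  have hne : {d : ℕ | ∃ D : V ⊕ Fin M → ℤ,
      RankGE (wedge G x M) D 2 ∧ ∑ v, D v = (d : ℤ)}.Nonempty := by
    refine ⟨M + M, M • Pi.single (Sum.inl x) 1 + M • Pi.single (Sum.inl x) 1,
      frank_two _ _ (fun v w => (fdom_all G x M h v).add (fdom_all G x M h w)), ?_⟩
    have hs : ∑ v, (M • Pi.single (Sum.inl x) 1 : V ⊕ Fin M → ℤ) v = M := by
      simp only [Pi.smul_apply, nsmul_eq_mul, ← Finset.mul_sum, Finset.sum_pi_single', mem_univ,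
        if_true, mul_one]
    have ha : ∑ v, (M • Pi.single (Sum.inl x) 1 + M • Pi.single (Sum.inl x) 1 :
        V ⊕ Fin M → ℤ) v = ∑ v, (M • Pi.single (Sum.inl x) 1 : V ⊕ Fin M → ℤ) v +
          ∑ v, (M • Pi.single (Sum.inl x) 1 : V ⊕ Fin M → ℤ) v := Finset.sum_add_distrib
    rw [ha, hs]
    push_cast
    ring
  refine le_csInf hne ?_
  rintro d ⟨D, hD, hd⟩
  have := two_lower G x M hM D hD
  rw [hd] at this
  exact_mod_cast this

/-- If a connected graph has larger gonality than its first subdivision, then attaching a large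
complete graph gives a graph whose first gonality agrees with that of its metric graph while the
second does not. -/
theorem main [DecidableEq E] (hG : G.Connected) (hgap : (G.subdiv 2).gon < G.gon) :
    ∃ (x : V) (M : ℕ), (wedge G x M).Connected ∧
      mdgon (wedge G x M) 1 = dgon (wedge G x M) 1 ∧
      mdgon (wedge G x M) 2 < dgon (wedge G x M) 2 := by
  obtain ⟨x⟩ := hG.nonempty
  obtain ⟨N0, hN0⟩ := exists_big G hG x
  have h := hN0 (N0 + 1) (Nat.le_succ _)
  have hp : 0 < N0 + 1 := Nat.succ_pos N0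
  refine ⟨x, N0 + 1, wedge_connected G x _ hG, ?_, ?_⟩
  · rw [mdgon_one G x _ hp h, dgon_one G x _ hp h]
  · have h1 := mdgon_two G x _ h
    have h2 := dgon_two G x _ hp h
    omega

end Pool.Agent.V11142.WG
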