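import Pool.Agent.V11142.WG.Finite

/-!
# Divisors of rank two on the finite wedge
-/

set_option autoImplicit false

namespace Pool.Agent.V11142.WG

open Pool.Agent.H997R3.Gon Finset

variable {V E : Type} [Fintype V] [DecidableEq V] [Fintype E]
variable (G : MGraph V E) (x : V) (M : ℕ)

omit [Fintype V] [Fintype E] in
lemma single_kap_inl (w : Fin (M + 1)) (u : V) :
    (Pi.single (kap x w) 1 : V ⊕ Fin M → ℤ) (Sum.inl u) =
      if u = x then (if w = 0 then 1 else 0) else 0 := by
  refine Fin.cases ?_ (fun k => ?_) w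
  · rw [kap_zero, single_inl]
    simp [Pi.single_apply]
  · rw [kap_succ, Pi.single_eq_of_ne (by simp)]
    simp

theorem two_lower (hM : 0 < M) (D : V ⊕ Fin M → ℤ) (h : RankGE (wedge G x M) D 2) :
    (G.gon : ℤ) + M ≤ ∑ v, D v := by
  classical
  set P : V → ℤ → Prop := fun v c => ∃ g : V → ℤ, ∀ u,
    0 ≤ D (Sum.inl u) - (if u = x then c else 0) - (Pi.single v 1 : V → ℤ) u - G.lap g u with hP
  set Q : Fin (M + 1) → ℤ → Prop := fun w c => FDom (wedge G x M)
    (Sum.elim (fun u => if u = x then c else 0) (fun k => D (Sum.inr k)))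
    (Pi.single (kap x w) 1) with hQ
  have hPQ : ∀ v w, ∃ c, P v c ∧ Q w c := by
    intro v w
    obtain ⟨f, hf⟩ := fdom_of_rank (wedge G x M) D
      (Pi.single (Sum.inl v) 1 + Pi.single (kap x w) 1) 2 h
      (fun u => by
        simp only [Pi.add_apply, Pi.single_apply]
        split_ifs <;> norm_num)
      (by simp only [Pi.add_apply, Finset.sum_add_distrib, Finset.sum_pi_single', mem_univ,
            if_true]; norm_num)
    set b : ℤ := ∑ j ∈ univ.erase (0 : Fin (M + 1)), (f (Sum.inl x) - f (kap x j)) with hb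
    refine ⟨b + (if w = 0 then 1 else 0), ⟨fun u => f (Sum.inl u), fun u => ?_⟩,
      Sum.elim (fun _ => f (Sum.inl x)) (fun k => f (Sum.inr k)), ?_⟩
    · have h1 := hf (Sum.inl u)
      rw [lap_wedge_inl, ← hb] at h1
      simp only [Pi.add_apply] at h1
      rw [single_kap_inl, single_inl] at h1
      simp only [Sum.elim_inl] at h1
      by_cases hu : u = x
      · rw [if_pos hu] at h1 ⊢
        rw [if_pos hu] at h1
        linarith
      · rw [if_neg hu] at h1 ⊢
        rw [if_neg hu] at h1
        linarith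
    · have hk : ∀ i : Fin (M + 1),
          (Sum.elim (fun _ => f (Sum.inl x)) (fun k => f (Sum.inr k)) : V ⊕ Fin M → ℤ)
            (kap x i) = f (kap x i) := fun i => Fin.cases rfl (fun _ => rfl) i
      rintro (u | k)
      · rw [lap_wedge_inl, single_kap_inl]
        simp only [hk, Sum.elim_inl]
        have h0 : G.lap (fun _ => f (Sum.inl x)) u = 0 := by
          unfold MGraph.lap
          simp
        rw [h0, ← hb]
        split_ifs <;> linarith
      · rw [lap_wedge_inr]
        simp only [hk, Sum.elim_inr]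
        have h1 := hf (Sum.inr k)
        rw [lap_wedge_inr] at h1
        simp only [Pi.add_apply] at h1
        have h2 : (Pi.single (Sum.inl v) 1 : V ⊕ Fin M → ℤ) (Sum.inr k) = 0 :=
          Pi.single_eq_of_ne (by simp) 1
        rw [h2] at h1
        linarith
  have hPm : ∀ v c c', P v c → c' ≤ c → P v c' := by
    rintro v c c' ⟨g, hg⟩ hc
    refine ⟨g, fun u => ?_⟩
    have := hg u
    split_ifs at this ⊢ <;> linarith
  have hQm : ∀ w c c', Q w c → c ≤ c' → Q w c' := by
    intro w c c' hq hc
    refine FDom.trans (FDom.of_le ?_) hq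
    rintro (u | k)
    · simp only [Sum.elim_inl]
      split_ifs
      · exact hc
      · exact le_rfl
    · exact le_rfl
  have hsum : ∀ c : ℤ, ∑ v : V ⊕ Fin M, (Sum.elim (fun u => if u = x then c else 0)
      (fun k => D (Sum.inr k)) : V ⊕ Fin M → ℤ) v = c + ∑ k, D (Sum.inr k) := by
    intro c
    rw [Fintype.sum_sum_type]
    simp
  have hQb : ∀ w c, Q w c → 1 - ∑ k, D (Sum.inr k) ≤ c := by
    rintro w c ⟨f, hf⟩
    have h1 := Finset.sum_nonneg (s := univ) fun v _ => hf v
    rw [Finset.sum_sub_distrib, Finset.sum_sub_distrib, sum_lap, hsum,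
      Finset.sum_pi_single'] at h1
    simp only [mem_univ, if_true] at h1
    linarith
  have hmin : ∀ w, ∃ lb, Q w lb ∧ ∀ z, Q w z → lb ≤ z := by
    intro w
    refine Int.exists_least_of_bdd ⟨_, hQb w⟩ ?_
    obtain ⟨c, _, hc⟩ := hPQ x w
    exact ⟨c, hc⟩
  choose cw hcw hcw' using hmin
  obtain ⟨w0, _, hw0⟩ := Finset.exists_max_image univ cw ⟨0, mem_univ _⟩
  have allQ : ∀ w, Q w (cw w0) := fun w => hQm w _ _ (hcw w) (hw0 w (mem_univ w))
  have allP : ∀ v, P v (cw w0) := by
    intro v
    obtain ⟨c, h1, h2⟩ := hPQ v w0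
    exact hPm v c _ h1 (hcw' w0 c h2)
  have hK := lower G x M hM
    ((Sum.elim (fun u => if u = x then cw w0 else 0) (fun k => D (Sum.inr k)), 0) :
      MDiv (V ⊕ Fin M) (E ⊕ KE M)) (fun u => (allQ u.succ).toDom)
  rw [deg_def] at hK
  simp only [Pi.zero_apply, tot_zero, Finset.sum_const_zero, add_zero] at hK
  rw [hsum] at hK
  choose g hg using allP
  have hrank : G.EffRankOne (fun u => D (Sum.inl u) - (if u = x then cw w0 else 0) -
      G.lap (g x) u) := by
    refine ⟨fun u => ?_, fun v => ⟨fun u => g v u - g x u, fun u => ?_⟩⟩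
    · have h1 := hg x u
      have h2 : 0 ≤ (Pi.single x 1 : V → ℤ) u := by
        rw [Pi.single_apply]
        split_ifs <;> norm_num
      linarith
    · rw [lap_sub]
      have h1 := hg v u
      rw [Pi.single_apply] at h1
      linarith
  have hgon := MGraph.gon_le G _ hrank
    (∑ u, (D (Sum.inl u) - (if u = x then cw w0 else 0) - G.lap (g x) u)).toNat
    (Int.self_le_toNat _)
  have hnn : 0 ≤ ∑ u, (D (Sum.inl u) - (if u = x then cw w0 else 0) - G.lap (g x) u) :=
    Finset.sum_nonneg fun u _ => hrank.1 u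
  have hgon' : (G.gon : ℤ) ≤
      ∑ u, (D (Sum.inl u) - (if u = x then cw w0 else 0) - G.lap (g x) u) := by omega
  rw [Finset.sum_sub_distrib, Finset.sum_sub_distrib, sum_lap, Finset.sum_ite_eq'] at hgon'
  simp only [mem_univ, if_true] at hgon'
  rw [Fintype.sum_sum_type]
  linarith

end Pool.Agent.V11142.WG
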